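import Pool.Agent.Lib.MP_81defa_co.Core

/-! # Free families from random linear equations -/

set_option autoImplicit false

namespace Pool.Agent.MP81defa

open Finset

section
variable {n q : ℕ}

/-- the word with set of zeros `T` -/
def word (T : Finset (Fin n)) : Fin n → Bool := fun i => decide (i ∉ T)

theorem word_inj : Function.Injective (word (n := n)) := by
  intro T T' h
  ext i
  have := congrFun h i
  simp only [word, decide_eq_decide] at this
  tauto

/-- the columns `H i`, `i ∈ T`, are linearly independent -/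
def Good (H : Fin n → Fin (q + 1) → ZMod 2) (T : Finset (Fin n)) : Prop :=
  ∀ D ⊆ T, D.Nonempty → ∑ i ∈ D, H i ≠ 0

theorem card_V : Fintype.card (Fin (q + 1) → ZMod 2) = 2 * 2 ^ q := by
  simp [ZMod.card, pow_succ, mul_comm]

/-- a nontrivial equation has few solutions -/
theorem card_eq_zero (D : Finset (Fin n)) (hD : D.Nonempty) :
    #{H : Fin n → Fin (q + 1) → ZMod 2 | ∑ i ∈ D, H i = 0} * (2 * 2 ^ q) ≤
      Fintype.card (Fin n → Fin (q + 1) → ZMod 2) := by
  classical
  obtain ⟨i₀, hi₀⟩ := hD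
  rw [← card_V (q := q), ← Finset.card_univ (α := Fin (q + 1) → ZMod 2), ← Finset.card_product,
    ← Finset.card_univ]
  have hsum : ∀ (H : Fin n → Fin (q + 1) → ZMod 2) (v : Fin (q + 1) → ZMod 2),
      ∑ i ∈ D, (H + Pi.single i₀ v : Fin n → Fin (q + 1) → ZMod 2) i = ∑ i ∈ D, H i + v := by
    intro H v
    simp only [Pi.add_apply, Finset.sum_add_distrib]
    congr 1
    rw [Finset.sum_eq_single i₀]
    · simp
    · intro j _ hj
      simp [hj]
    · intro h
      exact absurd hi₀ h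
  apply Finset.card_le_card_of_injOn (fun p => p.1 + Pi.single i₀ p.2)
  · intro p _
    simp
  · rintro ⟨H, v⟩ hp ⟨H', v'⟩ hp' h
    simp only [Finset.coe_product, Finset.coe_filter, Set.mem_prod, Finset.mem_univ, true_and,
      Finset.coe_univ, Set.mem_univ, and_true, Set.mem_ofPred_eq] at hp hp'
    have h1 := hsum H v
    have h2 := hsum H' v'
    simp only at h
    rw [h, h2, hp, hp', zero_add, zero_add] at h1
    rw [h1] at h
    have h3 := add_right_cancel h
    rw [h3, h1]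

/-- at least half of the systems are good for a given set of `q` columns -/
theorem half_good (T : Finset (Fin n)) (hT : T.card = q) [DecidablePred fun H : Fin n → Fin (q + 1) → ZMod 2 => Good H T] :
    Fintype.card (Fin n → Fin (q + 1) → ZMod 2) ≤
      2 * #{H : Fin n → Fin (q + 1) → ZMod 2 | Good H T} := by
  classical
  have h1 : #{H : Fin n → Fin (q + 1) → ZMod 2 | ¬ Good H T} * (2 * 2 ^ q) ≤
      2 ^ q * Fintype.card (Fin n → Fin (q + 1) → ZMod 2) := by
    have hsub : ({H : Fin n → Fin (q + 1) → ZMod 2 | ¬ Good H T} : Finset _) ⊆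
        (T.powerset.filter fun D => D.Nonempty).biUnion
          fun D => {H : Fin n → Fin (q + 1) → ZMod 2 | ∑ i ∈ D, H i = 0} := by
      intro H hH
      rw [Finset.mem_filter] at hH
      have := hH.2
      unfold Good at this
      push Not at this
      obtain ⟨D, hDT, hD, h0⟩ := this
      rw [Finset.mem_biUnion]
      exact ⟨D, by simp [hDT, hD], by simp [h0]⟩
    calc _ ≤ (∑ D ∈ T.powerset.filter fun D => D.Nonempty,
          #{H : Fin n → Fin (q + 1) → ZMod 2 | ∑ i ∈ D, H i = 0}) * (2 * 2 ^ q) :=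
        Nat.mul_le_mul_right _ ((Finset.card_le_card hsub).trans Finset.card_biUnion_le)
      _ = ∑ D ∈ T.powerset.filter fun D => D.Nonempty,
          #{H : Fin n → Fin (q + 1) → ZMod 2 | ∑ i ∈ D, H i = 0} * (2 * 2 ^ q) :=
        Finset.sum_mul _ _ _
      _ ≤ ∑ D ∈ T.powerset.filter fun D => D.Nonempty,
          Fintype.card (Fin n → Fin (q + 1) → ZMod 2) := by
        apply Finset.sum_le_sum
        intro D hD
        exact card_eq_zero D (Finset.mem_filter.mp hD).2
      _ = #(T.powerset.filter fun D => D.Nonempty) *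
          Fintype.card (Fin n → Fin (q + 1) → ZMod 2) := by
        rw [Finset.sum_const, smul_eq_mul]
      _ ≤ _ := by
        apply Nat.mul_le_mul_right
        refine (Finset.card_filter_le _ _).trans ?_
        rw [Finset.card_powerset, hT]
  have h2 : #{H : Fin n → Fin (q + 1) → ZMod 2 | Good H T} +
      #{H : Fin n → Fin (q + 1) → ZMod 2 | ¬ Good H T} =
      Fintype.card (Fin n → Fin (q + 1) → ZMod 2) := by
    rw [← Finset.card_univ]
    exact Finset.card_filter_add_card_filter_not _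
  have h3 : 2 * #{H : Fin n → Fin (q + 1) → ZMod 2 | ¬ Good H T} ≤
      Fintype.card (Fin n → Fin (q + 1) → ZMod 2) := by
    have hpos : 0 < 2 ^ q := by positivity
    apply Nat.le_of_mul_le_mul_left _ hpos
    linarith
  omega

/-- some system and right hand side has many good sets of `q` columns -/
theorem exists_many (n q : ℕ) : ∃ (H : Fin n → Fin (q + 1) → ZMod 2) (s : Fin (q + 1) → ZMod 2)
    (𝒯 : Finset (Finset (Fin n))), (∀ T ∈ 𝒯, T.card = q ∧ Good H T ∧ ∑ i ∈ T, H i = s) ∧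
      n.choose q ≤ 4 * 2 ^ q * 𝒯.card := by
  classical
  by_contra hcon
  push Not at hcon
  let P : Finset (Finset (Fin n)) := Finset.powersetCard q Finset.univ
  have hP : #P = n.choose q := by simp [P]
  let Φ := Fin n → Fin (q + 1) → ZMod 2
  have key : ∀ (H : Φ) (s : Fin (q + 1) → ZMod 2),
      4 * 2 ^ q * #{T ∈ P | Good H T ∧ ∑ i ∈ T, H i = s} < n.choose q := by
    intro H s
    apply hcon H s
    intro T hT
    simp only [P, Finset.mem_filter, Finset.mem_powersetCard] at hT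
    exact ⟨hT.1.2, hT.2⟩
  have h1 : ∑ H : Φ, ∑ s : Fin (q + 1) → ZMod 2,
      4 * 2 ^ q * #{T ∈ P | Good H T ∧ ∑ i ∈ T, H i = s} <
      ∑ _H : Φ, ∑ _s : Fin (q + 1) → ZMod 2, n.choose q := by
    apply Finset.sum_lt_sum_of_nonempty Finset.univ_nonempty
    intro H _
    exact Finset.sum_lt_sum_of_nonempty Finset.univ_nonempty fun s _ => key H s
  have h2 : ∀ H : Φ, ∑ s : Fin (q + 1) → ZMod 2, #{T ∈ P | Good H T ∧ ∑ i ∈ T, H i = s} =
      #{T ∈ P | Good H T} := by
    intro H
    rw [Finset.card_eq_sum_card_fiberwise (s := {T ∈ P | Good H T})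
      (f := fun T => ∑ i ∈ T, H i) (t := Finset.univ) (fun _ _ => by simp)]
    apply Finset.sum_congr rfl
    intro s _
    rw [Finset.filter_filter]
  have h3 : ∑ H : Φ, #{T ∈ P | Good H T} = ∑ T ∈ P, #{H : Φ | Good H T} := by
    simp only [Finset.card_filter]
    exact Finset.sum_comm
  have h4 : n.choose q * Fintype.card Φ ≤ 2 * ∑ T ∈ P, #{H : Φ | Good H T} := by
    rw [← hP, Finset.mul_sum, ← smul_eq_mul, ← Finset.sum_const]
    apply Finset.sum_le_sum
    intro T hT
    exact half_good T (Finset.mem_powersetCard.mp hT).2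
  simp only [← Finset.mul_sum, Finset.sum_const, smul_eq_mul, Finset.card_univ] at h1
  rw [Finset.sum_congr rfl (fun H _ => h2 H), h3, card_V] at h1
  have h5 : 4 * 2 ^ q * ∑ T ∈ P, #{H : Φ | Good H T} =
      2 * 2 ^ q * (2 * ∑ T ∈ P, #{H : Φ | Good H T}) := by ring
  have h6 : 2 * 2 ^ q * (n.choose q * Fintype.card Φ) ≤
      2 * 2 ^ q * (2 * ∑ T ∈ P, #{H : Φ | Good H T}) := Nat.mul_le_mul_left _ h4
  have h7 : 2 * 2 ^ q * (n.choose q * Fintype.card Φ) =
      Fintype.card Φ * (2 * 2 ^ q * n.choose q) := by ring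
  linarith

/-- the good sets with a given sum form a free family -/
theorem free_of_good (H : Fin n → Fin (q + 1) → ZMod 2) (s : Fin (q + 1) → ZMod 2)
    (𝒯 : Finset (Finset (Fin n))) (h : ∀ T ∈ 𝒯, Good H T ∧ ∑ i ∈ T, H i = s) :
    Free (𝒯.image word) := by
  classical
  have key : ∀ T₁ ∈ 𝒯, ∀ T₂ ∈ 𝒯, ∀ T₃ ∈ 𝒯,
      (∀ i, ((i ∈ T₂ ∧ i ∉ T₃) ∨ (i ∈ T₃ ∧ i ∉ T₂)) → i ∈ T₁) → T₂ = T₃ := by
    intro T₁ h₁ T₂ h₂ T₃ h₃ hD
    by_contra hne
    have hsub : symmDiff T₂ T₃ ⊆ T₁ := by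
      intro i hi
      exact hD i (Finset.mem_symmDiff.mp hi)
    have hnon : (symmDiff T₂ T₃).Nonempty := by
      rw [Finset.nonempty_iff_ne_empty]
      intro h0
      exact hne (symmDiff_eq_bot.mp h0)
    apply (h T₁ h₁).1 _ hsub hnon
    have e1 : ∑ i ∈ symmDiff T₂ T₃, H i = ∑ i ∈ T₂ \ T₃, H i + ∑ i ∈ T₃ \ T₂, H i := by
      rw [symmDiff_def, Finset.sup_eq_union, Finset.sum_union]
      exact disjoint_sdiff_sdiff
    have e2 : ∑ i ∈ T₂ \ T₃, H i + ∑ i ∈ T₂ ∩ T₃, H i = s := by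
      rw [← (h T₂ h₂).2, ← Finset.sum_union (Finset.disjoint_sdiff_inter T₂ T₃),
        Finset.sdiff_union_inter]
    have e3 : ∑ i ∈ T₃ \ T₂, H i + ∑ i ∈ T₂ ∩ T₃, H i = s := by
      rw [Finset.inter_comm, ← (h T₃ h₃).2,
        ← Finset.sum_union (Finset.disjoint_sdiff_inter T₃ T₂), Finset.sdiff_union_inter]
    have e4 : ∑ i ∈ T₂ \ T₃, H i = ∑ i ∈ T₃ \ T₂, H i :=
      add_right_cancel (e2.trans e3.symm)
    rw [e1, e4]
    funext j
    exact CharTwo.add_self_eq_zero _
  intro X hX Y hY Z hZ hXYZ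
  obtain ⟨T₁, h₁, rfl⟩ := Finset.mem_image.mp hX
  obtain ⟨T₂, h₂, rfl⟩ := Finset.mem_image.mp hY
  obtain ⟨T₃, h₃, rfl⟩ := Finset.mem_image.mp hZ
  have e1 : T₂ = T₃ := key T₁ h₁ T₂ h₂ T₃ h₃ (fun i hi => by
    by_contra hi'
    apply hXYZ i
    unfold Two word
    simp only [decide_eq_true_eq, decide_eq_false_iff_not]
    tauto)
  have e2 : T₁ = T₃ := key T₂ h₂ T₁ h₁ T₃ h₃ (fun i hi => by
    by_contra hi'
    apply hXYZ i
    unfold Two word
    simp only [decide_eq_true_eq, decide_eq_false_iff_not]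
    tauto)
  rw [e1, e2]
  exact ⟨rfl, rfl⟩

theorem prod_word (a b : ℕ) (T : Finset (Fin n)) :
    ∏ i, (if word T i then b else a) = b ^ (n - T.card) * a ^ T.card := by
  classical
  have h : ∀ i, (if word T i then b else a) = if i ∈ T then a else b := by
    intro i
    by_cases hi : i ∈ T <;> simp [word, hi]
  simp only [h]
  rw [Finset.prod_ite, Finset.prod_const, Finset.prod_const, mul_comm]
  congr 2
  · rw [Finset.filter_not, Finset.card_sdiff_of_subset (Finset.filter_subset _ _)]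
    simp
  · simp

/-- Free families of large weight. -/
theorem base (n a b : ℕ) : ∃ F : Finset (Fin n → Bool), Free F ∧
    (2 * b + a) ^ n ≤ 4 * (n + 1) * 2 ^ n * ∑ X ∈ F, ∏ i, (if X i then b else a) := by
  classical
  obtain ⟨m, hm, hmax⟩ : ∃ m ∈ Finset.range (n + 1),
      (2 * b + a) ^ n ≤ (n + 1) * ((2 * b) ^ m * a ^ (n - m) * n.choose m) := by
    by_contra hcon
    push Not at hcon
    have h1 : ∑ m ∈ Finset.range (n + 1), (n + 1) * ((2 * b) ^ m * a ^ (n - m) * n.choose m) <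
        ∑ _m ∈ Finset.range (n + 1), (2 * b + a) ^ n :=
      Finset.sum_lt_sum_of_nonempty ⟨0, by simp⟩ hcon
    rw [← Finset.mul_sum, Finset.sum_const, Finset.card_range, smul_eq_mul] at h1
    have h2 := add_pow (2 * b) a n
    simp only [Nat.cast_id] at h2
    rw [← h2] at h1
    exact lt_irrefl _ h1
  rw [Finset.mem_range] at hm
  obtain ⟨q, hq⟩ : ∃ q, q = n - m := ⟨_, rfl⟩
  obtain ⟨H, s, 𝒯, h𝒯, hcard⟩ := exists_many n q
  refine ⟨𝒯.image word, free_of_good H s 𝒯 (fun T hT => (h𝒯 T hT).2), ?_⟩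
  have hw : ∑ X ∈ 𝒯.image word, ∏ i, (if X i then b else a) = 𝒯.card * (b ^ m * a ^ q) := by
    rw [Finset.sum_image (fun x _ y _ h => word_inj h), ← smul_eq_mul, ← Finset.sum_const]
    apply Finset.sum_congr rfl
    intro T hT
    rw [prod_word, (h𝒯 T hT).1]
    congr 2
    omega
  rw [hw]
  have hch : n.choose m = n.choose q := by
    rw [hq, Nat.choose_symm (by omega)]
  have hpow : (2 : ℕ) ^ n = 2 ^ m * 2 ^ q := by
    rw [← pow_add]
    congr 1
    omega
  calc (2 * b + a) ^ n ≤ (n + 1) * ((2 * b) ^ m * a ^ (n - m) * n.choose m) := hmax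
    _ = (n + 1) * (2 ^ m * b ^ m * a ^ q) * n.choose q := by rw [hch, ← hq, mul_pow]; ring
    _ ≤ (n + 1) * (2 ^ m * b ^ m * a ^ q) * (4 * 2 ^ q * 𝒯.card) := Nat.mul_le_mul_left _ hcard
    _ = _ := by rw [hpow]; ring

end

end Pool.Agent.MP81defa
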