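import Pool.Agent.Lib.MP_81defa_co.Letters

/-! # Blow-ups of uniform sunflower-free families -/

set_option autoImplicit false

open Finset Function

namespace Pool.Agent.MP81defaV

open Pool.Agent.MP81defa

variable {n : ℕ}

/-- the set of places of the letter 0 -/
def base (w : Fin n → Fin 3) : Finset (Fin n) := Finset.univ.filter fun i => w i = 0

theorem mem_base {w : Fin n → Fin 3} {i : Fin n} : i ∈ base w ↔ w i = 0 := by
  simp [base]

/-- the set of places where a word of triples is constant -/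
def nb (y : Fin n → Th) : Finset (Fin n) := Finset.univ.filter fun i => y i = none

theorem mem_nb {y : Fin n → Th} {i : Fin n} : i ∈ nb y ↔ y i = none := by
  simp [nb]

/-- comparison of words at the first place where they may differ -/
theorem lex_le {u v : Fin n → Fin 3} {i : Fin n} (h : toLex u ≤ toLex v)
    (he : ∀ j < i, u j = v j) : u i ≤ v i := by
  rcases h.eq_or_lt with h | h
  · have : u = v := toLex.injective h
    rw [this]
  · obtain ⟨k, hk, hlt⟩ := h
    rcases lt_trichotomy i k with hik | hik | hik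
    · exact (hk i hik).le
    · rw [hik]
      exact hlt.le
    · exact absurd (he k hik) hlt.ne

/-- sets that are not a sunflower -/
theorem all_eq {k : ℕ} {F : Finset (Finset (Fin n))} (hF : SunflowerFree F)
    (hk : ∀ A ∈ F, A.card = k) {A B C : Finset (Fin n)} (hA : A ∈ F) (hB : B ∈ F) (hC : C ∈ F)
    (h1 : ∀ i, i ∈ A → i ∈ B → i ∈ C) (h2 : ∀ i, i ∈ A → i ∈ C → i ∈ B)
    (h3 : ∀ i, i ∈ B → i ∈ C → i ∈ A) : A = B ∧ B = C := by
  by_cases e1 : A = B
  · subst e1
    refine ⟨rfl, Finset.eq_of_subset_of_card_le (fun i hi => h1 i hi hi) ?_⟩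
    rw [hk _ hA, hk _ hC]
  by_cases e2 : A = C
  · subst e2
    have := Finset.eq_of_subset_of_card_le (fun i hi => h2 i hi hi) (by rw [hk _ hA, hk _ hB])
    exact ⟨this, this.symm⟩
  by_cases e3 : B = C
  · subst e3
    have := Finset.eq_of_subset_of_card_le (fun i hi => h3 i hi hi) (by rw [hk _ hA, hk _ hB])
    exact ⟨this.symm, rfl⟩
  exfalso
  refine hF A hA B hB C hC ⟨e1, e2, e3, ?_, ?_⟩
  · ext i
    simp only [Finset.mem_inter]
    exact ⟨fun h => ⟨h.1, h1 i h.1 h.2⟩, fun h => ⟨h.1, h2 i h.1 h.2⟩⟩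
  · ext i
    simp only [Finset.mem_inter]
    exact ⟨fun h => ⟨h2 i h.1 h.2, h.2⟩, fun h => ⟨h3 i h.1 h.2, h.2⟩⟩

/-- the index words: `2 μ` places of the number 2 and few places of the number 1 -/
def light (α : Type) [Fintype α] [DecidableEq α] (μ : ℕ) : Finset (α → Fin 3) :=
  Finset.univ.filter fun v => (Finset.univ.filter fun i => v i = 2).card = 2 * μ ∧
    3 * (Finset.univ.filter fun i => v i = 1).card + 3 * μ ≤ Fintype.card α

/-- the words of triples over a family, with `μ` places of each of the three other triples -/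
def Ys (F : Finset (Finset (Fin n))) (μ : ℕ) : Finset (Fin n → Th) :=
  Finset.univ.filter fun y => nb y ∈ F ∧
    ∀ k : Fin 3, (Finset.univ.filter fun i => y i = some k).card = μ

theorem th_count : ∀ (k : Fin 3) (θ : Th), (if leg k θ = 2 then 1 else 0) +
    (if θ = some k then 1 else 0) = ∑ l : Fin 3, (if θ = some l then 1 else 0) := by
  decide +kernel

theorem card_leg_two {F : Finset (Finset (Fin n))} {μ : ℕ} {y : Fin n → Th} (hy : y ∈ Ys F μ)
    (k : Fin 3) : (Finset.univ.filter fun i => leg k (y i) = 2).card = 2 * μ := by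
  have h := (Finset.mem_filter.mp hy).2.2
  have h1 : ∑ i, ((if leg k (y i) = 2 then 1 else 0) + (if y i = some k then 1 else 0)) =
      ∑ i, ∑ l : Fin 3, (if y i = some l then 1 else 0) :=
    Finset.sum_congr rfl fun i _ => th_count k (y i)
  rw [Finset.sum_add_distrib, ← Finset.card_filter, ← Finset.card_filter, Finset.sum_comm] at h1
  simp only [← Finset.card_filter, h, Finset.sum_const, Finset.card_univ, Fintype.card_fin,
    smul_eq_mul] at h1
  omega

theorem base_leg (k : Fin 3) (y : Fin n → Th) : base (fun i => leg k (y i)) = nb y := by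
  ext i
  rw [mem_base, mem_nb, leg_zero]

/-- the bound for the number of words of triples over a uniform family -/
theorem card_Ys_le {k : ℕ} {F : Finset (Finset (Fin n))} (hF : SunflowerFree F)
    (hk : ∀ A ∈ F, A.card = k) (S : Finset (Fin n)) (hS : ∀ A ∈ F, S ⊆ A) (μ : ℕ) :
    (Ys F μ).card ≤ 3 * (4 ^ μ * (light {i : Fin n // i ∉ S} μ).card) := by
  classical
  have hY : ∀ y ∈ Ys F μ, nb y ∈ F := fun y hy => (Finset.mem_filter.mp hy).2.1
  rw [← Fintype.card_coe]
  let X := {w : Fin n → Fin 3 // base w ∈ F ∧ (Finset.univ.filter fun i => w i = 2).card = 2 * μ}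
  let m : Fin 3 → {y // y ∈ Ys F μ} → X := fun k y => ⟨fun i => leg k (y.1 i),
    by rw [base_leg]; exact hY _ y.2, card_leg_two y.2 k⟩
  have hfib : ∀ (k : Fin 3) (G : Finset {y // y ∈ Ys F μ}) (x : X), (∀ w ∈ G, m k w = x) →
      G.card ≤ 4 ^ μ := by
    intro k G x hG
    rw [← Finset.card_map (Embedding.subtype _)]
    have h1 : G.map (Embedding.subtype _) ⊆
        Fintype.piFinset fun i => Finset.univ.filter fun θ : Th => leg k θ = x.1 i := by
      intro y hy
      obtain ⟨z, hz, rfl⟩ := Finset.mem_map.mp hy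
      rw [Fintype.mem_piFinset]
      intro i
      simp only [Finset.mem_filter, Finset.mem_univ, true_and]
      exact congrFun (congrArg Subtype.val (hG z hz)) i
    refine (Finset.card_le_card h1).trans ?_
    rw [Fintype.card_piFinset]
    simp only [deg_leg, deg_eq]
    rw [Finset.prod_ite, Finset.prod_const, Finset.prod_const_one, mul_one, x.2.2, pow_mul]
    norm_num
  have hind : ∀ (k : Fin 3) (l : {i : Fin n // i ∉ S} → J),
      (fun w : X => ∏ i, phi (lab k (l i)) (w.1 i)) ≠ 0 →
      (Finset.univ.filter fun i => lab k (l i) = 2).card = 2 * μ := by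
    intro k l hne
    obtain ⟨w, hw⟩ := Function.ne_iff.mp hne
    have h1 : ∀ i : {i : Fin n // i ∉ S}, (lab k (l i) = 2 ↔ w.1 i = 2) := fun i =>
      phi_two _ _ (Finset.prod_ne_zero_iff.mp hw i (Finset.mem_univ _))
    rw [← w.2.2]
    refine Finset.card_bij (fun i _ => i.1) ?_ ?_ ?_
    · intro i hi
      simp only [Finset.mem_filter, Finset.mem_univ, true_and] at hi ⊢
      exact (h1 i).mp hi
    · intro i _ j _ hij
      exact Subtype.ext hij
    · intro i hi
      simp only [Finset.mem_filter, Finset.mem_univ, true_and] at hi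
      have hiS : i ∉ S := by
        intro hiS
        have h2 := mem_base.mp (hS _ w.2.1 hiS)
        rw [h2] at hi
        exact absurd hi (by decide)
      refine ⟨⟨i, hiS⟩, ?_, rfl⟩
      simp only [Finset.mem_filter, Finset.mem_univ, true_and]
      exact (h1 ⟨i, hiS⟩).mpr hi
  refine card_le_mul (K := ZMod 2) (X := X) (V := {i : Fin n // i ∉ S} → Fin 3)
    (Λ := {i : Fin n // i ∉ S} → J) (L := Lex (Fin n → Fin 3))
    (fun w => toLex fun i => ord1 (w.1 i)) (fun w => toLex fun i => ord1 (w.1 i))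
    (fun w => toLex w.1)
    (fun a b c => ∏ i : {i : Fin n // i ∉ S}, ten (a.1 i) (b.1 i) (c.1 i)) (m 0) (m 1) (m 2)
    ?_ ?_ (fun v w => ∏ i, phi (v i) (w.1 i))
    (fun l i => lab 0 (l i)) (fun l i => lab 1 (l i)) (fun l i => lab 2 (l i)) ?_
    (light {i : Fin n // i ∉ S} μ) ?_ (4 ^ μ) (hfib 0) (hfib 1) (hfib 2)
  · intro w
    exact Finset.prod_ne_zero_iff.mpr fun i _ => ten_leg _
  · intro w a b c h0 hle1 hle2 hle3
    have h0' : ∀ i, i ∉ S → ten (a.1 i) (b.1 i) (c.1 i) ≠ 0 := fun i hi =>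
      Finset.prod_ne_zero_iff.mp h0 ⟨i, hi⟩ (Finset.mem_univ _)
    have hcl := fun i hi => ten_class _ _ _ (h0' i hi)
    have hbase := all_eq hF hk a.2.1 b.2.1 c.2.1
      (fun i ha hb => by
        by_cases hi : i ∈ S
        · exact hS _ c.2.1 hi
        · exact mem_base.mpr ((hcl i hi).1 (mem_base.mp ha) (mem_base.mp hb)))
      (fun i ha hc => by
        by_cases hi : i ∈ S
        · exact hS _ b.2.1 hi
        · exact mem_base.mpr ((hcl i hi).2.1 (mem_base.mp ha) (mem_base.mp hc)))
      (fun i hb hc => by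
        by_cases hi : i ∈ S
        · exact hS _ a.2.1 hi
        · exact mem_base.mpr ((hcl i hi).2.2 (mem_base.mp hb) (mem_base.mp hc)))
    have hab : ∀ i, a.1 i = 0 ↔ b.1 i = 0 := by
      intro i
      rw [← mem_base, ← mem_base, hbase.1]
    have hbc : ∀ i, b.1 i = 0 ↔ c.1 i = 0 := by
      intro i
      rw [← mem_base, ← mem_base, hbase.2]
    have main : ∀ m : ℕ, ∀ i : Fin n, i.1 = m → a.1 i = leg 0 (w.1 i) ∧ b.1 i = leg 1 (w.1 i) ∧
        c.1 i = leg 2 (w.1 i) := by
      intro m
      induction m using Nat.strong_induction_on with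
      | _ m ih =>
        intro i hi
        have hprev : ∀ j < i, a.1 j = leg 0 (w.1 j) ∧ b.1 j = leg 1 (w.1 j) ∧
            c.1 j = leg 2 (w.1 j) := by
          intro j hj
          exact ih j.1 (by rw [← hi]; exact hj) j rfl
        by_cases hiS : i ∈ S
        · have e0 : w.1 i = none := mem_nb.mp (hS _ (hY _ w.2) hiS)
          have e1 : a.1 i = 0 := mem_base.mp (hS _ a.2.1 hiS)
          have e2 : b.1 i = 0 := mem_base.mp (hS _ b.2.1 hiS)
          have e3 : c.1 i = 0 := mem_base.mp (hS _ c.2.1 hiS)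
          rw [e0, e1, e2, e3]
          exact ⟨rfl, rfl, rfl⟩
        · refine ten_anti (w.1 i) _ _ _ (h0' i hiS) (hab i) (hbc i) ?_ ?_ ?_
          · exact lex_le hle1 fun j hj => by
              show ord1 (leg 0 (w.1 j)) = ord1 (a.1 j)
              rw [(hprev j hj).1]
          · exact lex_le hle2 fun j hj => by
              show ord1 (leg 1 (w.1 j)) = ord1 (b.1 j)
              rw [(hprev j hj).2.1]
          · exact lex_le hle3 fun j hj => by
              show leg 2 (w.1 j) = c.1 j
              rw [(hprev j hj).2.2]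
    refine ⟨Subtype.ext (funext fun i => (main i.1 i rfl).1),
      Subtype.ext (funext fun i => (main i.1 i rfl).2.1),
      Subtype.ext (funext fun i => (main i.1 i rfl).2.2)⟩
  · intro a b c
    simp only [ten]
    rw [Finset.prod_univ_sum, Fintype.piFinset_univ]
    refine Finset.sum_congr rfl fun l _ => ?_
    rw [Finset.prod_mul_distrib, Finset.prod_mul_distrib]
  · intro l z0 z1 z2
    have c0 := hind 0 l z0
    have c1 := hind 1 l z1
    have c2 := hind 2 l z2
    simp only [light, Finset.mem_filter, Finset.mem_univ, true_and]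
    by_contra hcon
    push Not at hcon
    have d0 := hcon.1 c0
    have d1 := hcon.2.1 c1
    have d2 := hcon.2.2 c2
    have h1 : ∑ i, (2 * ((if lab 0 (l i) = 1 then 1 else 0) + (if lab 1 (l i) = 1 then 1 else 0) +
        (if lab 2 (l i) = 1 then 1 else 0)) + ((if lab 0 (l i) = 2 then 1 else 0) +
        (if lab 1 (l i) = 2 then 1 else 0) + (if lab 2 (l i) = 2 then 1 else 0))) =
        ∑ _i : {i : Fin n // i ∉ S}, 2 := Finset.sum_congr rfl fun i _ => lab_count (l i)
    simp only [Finset.sum_add_distrib, ← Finset.mul_sum, ← Finset.card_filter, c0, c1, c2,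
      Finset.sum_const, Finset.card_univ, smul_eq_mul] at h1
    omega

/-- the number of words of triples -/
theorem card_le_Ys {F : Finset (Finset (Fin n))} {k μ : ℕ} (hk : ∀ A ∈ F, A.card = k)
    (hn : k + 3 * μ = n) :
    F.card * ((3 * μ).choose μ * (2 * μ).choose μ) ≤ (Ys F μ).card := by
  classical
  let Z : Finset (Σ _ : Finset (Fin n), Σ _ : Finset (Fin n), Finset (Fin n)) :=
    F.sigma fun A => (Finset.powersetCard μ Aᶜ).sigma fun P => Finset.powersetCard μ (Aᶜ \ P)
  have hZ : Z.card = F.card * ((3 * μ).choose μ * (2 * μ).choose μ) := by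
    simp only [Z]
    rw [Finset.card_sigma, ← smul_eq_mul, ← Finset.sum_const]
    refine Finset.sum_congr rfl fun A hA => ?_
    have hAc : Aᶜ.card = 3 * μ := by
      rw [Finset.card_compl, Fintype.card_fin, hk A hA]
      omega
    rw [Finset.card_sigma, ← hAc, ← Finset.card_powersetCard μ Aᶜ, ← smul_eq_mul,
      ← Finset.sum_const]
    refine Finset.sum_congr rfl fun P hP => ?_
    obtain ⟨hPA, hPa⟩ := Finset.mem_powersetCard.mp hP
    have h1 : (Aᶜ \ P).card = 2 * μ := by
      rw [Finset.card_sdiff_of_subset hPA, hAc, hPa]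
      omega
    rw [Finset.card_powersetCard, h1]
  rw [← hZ]
  let f : (Σ _ : Finset (Fin n), Σ _ : Finset (Fin n), Finset (Fin n)) → Fin n → Th := fun z i =>
    if i ∈ z.1 then none else some (if i ∈ z.2.1 then 0 else if i ∈ z.2.2 then 1 else 2)
  have hmem : ∀ z ∈ Z, z.1 ∈ F ∧ (z.2.1 ⊆ z.1ᶜ ∧ z.2.1.card = μ) ∧
      (z.2.2 ⊆ z.1ᶜ \ z.2.1 ∧ z.2.2.card = μ) := by
    intro z hz
    simp only [Z, Finset.mem_sigma, Finset.mem_powersetCard] at hz
    exact hz
  have l0 : ∀ z i, f z i = none ↔ i ∈ z.1 := by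
    intro z i
    by_cases h1 : i ∈ z.1
    · simp [f, h1]
    · simp [f, h1]
  have l1 : ∀ z ∈ Z, ∀ i, f z i = some 0 ↔ i ∈ z.2.1 := by
    intro z hz i
    obtain ⟨-, ⟨hP, -⟩, ⟨hQ, -⟩⟩ := hmem z hz
    have g1 : i ∈ z.2.1 → i ∉ z.1 := fun h => Finset.mem_compl.mp (hP h)
    by_cases h1 : i ∈ z.1 <;> by_cases h2 : i ∈ z.2.1 <;> by_cases h3 : i ∈ z.2.2 <;>
      simp [f, h1, h2, h3] at g1 ⊢
  have l2 : ∀ z ∈ Z, ∀ i, f z i = some 1 ↔ i ∈ z.2.2 := by
    intro z hz i
    obtain ⟨-, ⟨hP, -⟩, ⟨hQ, -⟩⟩ := hmem z hz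
    have g1 : i ∈ z.2.2 → i ∉ z.1 ∧ i ∉ z.2.1 := fun h =>
      ⟨Finset.mem_compl.mp (Finset.mem_sdiff.mp (hQ h)).1, (Finset.mem_sdiff.mp (hQ h)).2⟩
    by_cases h1 : i ∈ z.1 <;> by_cases h2 : i ∈ z.2.1 <;> by_cases h3 : i ∈ z.2.2 <;>
      simp [f, h1, h2, h3] at g1 ⊢
  have l3 : ∀ z ∈ Z, ∀ i, f z i = some 2 ↔ i ∈ (z.1ᶜ \ z.2.1) \ z.2.2 := by
    intro z hz i
    by_cases h1 : i ∈ z.1 <;> by_cases h2 : i ∈ z.2.1 <;> by_cases h3 : i ∈ z.2.2 <;>
      simp [f, h1, h2, h3]
  refine Finset.card_le_card_of_injOn f ?_ ?_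
  · intro z hz
    have hz' : z ∈ Z := hz
    obtain ⟨hA, ⟨hP, hPa⟩, ⟨hQ, hQb⟩⟩ := hmem z hz'
    have hAc : z.1ᶜ.card = 3 * μ := by
      rw [Finset.card_compl, Fintype.card_fin, hk _ hA]
      omega
    rw [Finset.mem_coe]
    simp only [Ys, Finset.mem_filter, Finset.mem_univ, true_and]
    refine ⟨?_, ?_⟩
    · have : nb (f z) = z.1 := by
        ext i
        rw [mem_nb, l0]
      rw [this]
      exact hA
    · have q0 : (Finset.univ.filter fun i => f z i = some 0) = z.2.1 := by
        ext i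
        simp only [Finset.mem_filter, Finset.mem_univ, true_and]
        exact l1 z hz' i
      have q1 : (Finset.univ.filter fun i => f z i = some 1) = z.2.2 := by
        ext i
        simp only [Finset.mem_filter, Finset.mem_univ, true_and]
        exact l2 z hz' i
      have q2 : (Finset.univ.filter fun i => f z i = some 2) = (z.1ᶜ \ z.2.1) \ z.2.2 := by
        ext i
        simp only [Finset.mem_filter, Finset.mem_univ, true_and]
        exact l3 z hz' i
      intro k
      fin_cases k
      · show (Finset.univ.filter fun i => f z i = some 0).card = μ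
        rw [q0, hPa]
      · show (Finset.univ.filter fun i => f z i = some 1).card = μ
        rw [q1, hQb]
      · show (Finset.univ.filter fun i => f z i = some 2).card = μ
        rw [q2, Finset.card_sdiff_of_subset hQ, Finset.card_sdiff_of_subset hP, hAc, hPa, hQb]
        omega
  · intro z hz z' hz' h
    have hz1 : z ∈ Z := hz
    have hz1' : z' ∈ Z := hz'
    have hi : ∀ i, f z i = f z' i := fun i => congrFun h i
    have e1 : z.1 = z'.1 := by
      ext i
      rw [← l0 z i, ← l0 z' i, hi i]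
    have e2 : z.2.1 = z'.2.1 := by
      ext i
      rw [← l1 z hz1 i, ← l1 z' hz1' i, hi i]
    have e3 : z.2.2 = z'.2.2 := by
      ext i
      rw [← l2 z hz1 i, ← l2 z' hz1' i, hi i]
    obtain ⟨A, P, Q⟩ := z
    obtain ⟨A', P', Q'⟩ := z'
    simp only at e1 e2 e3
    subst e1 e2 e3
    rfl

/-- the bound for a uniform family all of whose members contain a given set -/
theorem card_mul_le {k μ : ℕ} {F : Finset (Finset (Fin n))} (hF : SunflowerFree F)
    (hk : ∀ A ∈ F, A.card = k) (S : Finset (Fin n)) (hS : ∀ A ∈ F, S ⊆ A)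
    (hn : k + 3 * μ = n) :
    F.card * ((3 * μ).choose μ * (2 * μ).choose μ) ≤
      3 * (4 ^ μ * (light {i : Fin n // i ∉ S} μ).card) :=
  (card_le_Ys hk hn).trans (card_Ys_le hF hk S hS μ)

end Pool.Agent.MP81defaV
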