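import Pool.Agent.Lib.MP_81defa_co.Defs

/-! # From uniform families to the growth rate -/

set_option autoImplicit false

open Filter Topology Finset

namespace Pool.Agent.MP81defaV

open Pool.Agent.MP81defa

/-- from uniform families to all families, with any factor in front -/
theorem M_le_mul {n : ℕ} {B : ℝ}
    (h : ∀ k, ∀ F : Finset (Finset (Fin n)), SunflowerFree F → (∀ A ∈ F, A.card = k) →
      (F.card : ℝ) ≤ B) :
    (M n : ℝ) ≤ ((n : ℝ) + 1) * B := by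
  classical
  have hne : {k | ∃ F : Finset (Finset (Fin n)), SunflowerFree F ∧ F.card = k}.Nonempty :=
    ⟨0, ∅, by intro A hA; simp at hA, by simp⟩
  have hb : BddAbove {m | ∃ F : Finset (Finset (Fin n)), SunflowerFree F ∧ F.card = m} := by
    refine ⟨2 ^ n, ?_⟩
    rintro m ⟨F, -, rfl⟩
    refine (Finset.card_le_univ F).trans ?_
    rw [Fintype.card_finset, Fintype.card_fin]
  obtain ⟨F, hF, hFc⟩ := Nat.sSup_mem hne hb
  have h1 : F.card = ∑ k ∈ Finset.range (n + 1), (F.filter fun A => A.card = k).card := by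
    refine Finset.card_eq_sum_card_fiberwise fun A _ => ?_
    rw [Finset.coe_range, Set.mem_Iio]
    have := Finset.card_le_univ A
    rw [Fintype.card_fin] at this
    omega
  have h2 : (F.card : ℝ) = M n := by rw [hFc]; rfl
  rw [← h2, h1, Nat.cast_sum]
  calc ∑ k ∈ Finset.range (n + 1), (((F.filter fun A => A.card = k).card : ℕ) : ℝ)
      ≤ ∑ _k ∈ Finset.range (n + 1), B := by
        refine Finset.sum_le_sum fun k _ => h k _ ?_ ?_
        · intro A hA B hB D hD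
          exact hF A (Finset.mem_filter.mp hA).1 B (Finset.mem_filter.mp hB).1 D
            (Finset.mem_filter.mp hD).1
        · intro A hA
          exact (Finset.mem_filter.mp hA).2
    _ = ((n : ℝ) + 1) * B := by
        rw [Finset.sum_const, Finset.card_range, nsmul_eq_mul]
        push_cast
        ring

/-- a polynomial factor disappears in every larger base -/
theorem eventually_le_pow {u : ℕ → ℝ} {C g c' : ℝ} (j : ℕ) (hC : 0 < C) (hg : 0 < g)
    (hgc : g < c') (h : ∀ n : ℕ, u n ≤ C * ((n : ℝ) + 3) ^ j * g ^ n) :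
    ∀ᶠ n : ℕ in atTop, u n ≤ c' ^ n := by
  have hc' : 0 < c' := hg.trans hgc
  obtain ⟨r, hr⟩ : ∃ r : ℝ, r = g / c' := ⟨_, rfl⟩
  have hr0 : 0 < r := by rw [hr]; positivity
  have hr1 : r < 1 := by
    rw [hr, div_lt_one hc']
    exact hgc
  have h1 : Tendsto (fun n : ℕ => (n : ℝ) ^ j * r ^ n) atTop (𝓝 0) :=
    tendsto_pow_const_mul_const_pow_of_abs_lt_one j (by rw [abs_of_pos hr0]; exact hr1)
  have h2 := (h1.comp (tendsto_add_atTop_nat 3)).const_mul (C / r ^ 3)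
  have hr3 : r ^ 3 ≠ 0 := (pow_pos hr0 3).ne'
  filter_upwards [h2.eventually (gt_mem_nhds (show C / r ^ 3 * 0 < 1 by simp))] with n hn
  refine (h n).trans ?_
  have e : g ^ n = r ^ n * c' ^ n := by
    rw [hr, ← mul_pow, div_mul_cancel₀ _ hc'.ne']
  have hn' : C * ((n : ℝ) + 3) ^ j * r ^ n < 1 := by
    have e2 : C * ((n : ℝ) + 3) ^ j * r ^ n =
        C / r ^ 3 * (((n + 3 : ℕ) : ℝ) ^ j * r ^ (n + 3)) := by
      push_cast
      rw [pow_add r n 3]
      field_simp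
    rw [e2]
    exact hn
  rw [e]
  calc C * ((n : ℝ) + 3) ^ j * (r ^ n * c' ^ n) = (C * ((n : ℝ) + 3) ^ j * r ^ n) * c' ^ n := by
        ring
    _ ≤ 1 * c' ^ n := by
        exact mul_le_mul_of_nonneg_right hn'.le (pow_pos hc' n).le
    _ = c' ^ n := one_mul _

/-- the upper bound for the exponential growth rate -/
theorem limsup_le_of_eventually {u : ℕ → ℕ} {g : ℝ} (hg : 0 < g)
    (h : ∀ c' : ℝ, g < c' → ∀ᶠ n : ℕ in atTop, (u n : ℝ) ≤ c' ^ n) :
    limsup (fun n : ℕ => (u n : ℝ) ^ (1 / (n : ℝ))) atTop ≤ g := by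
  refine le_of_forall_gt_imp_ge_of_dense fun c' hc' => ?_
  have h0 : 0 < c' := hg.trans hc'
  refine limsup_le_of_le ?_ ?_
  · refine isCoboundedUnder_le_of_le atTop (x := 0) fun n => ?_
    positivity
  · filter_upwards [h c' hc', eventually_gt_atTop 0] with n hn hn0
    have hnR : (0 : ℝ) < n := by exact_mod_cast hn0
    calc (u n : ℝ) ^ (1 / (n : ℝ)) ≤ (c' ^ n) ^ (1 / (n : ℝ)) :=
          Real.rpow_le_rpow (Nat.cast_nonneg _) hn (by positivity)
      _ = c' := by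
          rw [← Real.rpow_natCast, ← Real.rpow_mul h0.le, mul_one_div, div_self hnR.ne',
            Real.rpow_one]

/-- (Q) from the bound for uniform families to the growth rate -/
theorem growth {C g : ℝ} (hC : 0 < C) (hg : 1 ≤ g)
    (h : ∀ (n k : ℕ) (F : Finset (Finset (Fin n))), SunflowerFree F → (∀ A ∈ F, A.card = k) →
      (F.card : ℝ) ≤ C * ((n : ℝ) + 3) ^ 2 * g ^ n) :
    limsup (fun n : ℕ => (M n : ℝ) ^ (1 / (n : ℝ))) atTop ≤ g ∧
      ∀ c' : ℝ, g < c' → ∀ᶠ n : ℕ in atTop, (M n : ℝ) ≤ c' ^ n := by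
  have hg0 : 0 < g := one_pos.trans_le hg
  have h1 : ∀ n : ℕ, (M n : ℝ) ≤ C * ((n : ℝ) + 3) ^ 3 * g ^ n := by
    intro n
    refine (M_le_mul (B := C * ((n : ℝ) + 3) ^ 2 * g ^ n) fun k F hF hk => h n k F hF hk).trans ?_
    have h2 : 0 ≤ C * ((n : ℝ) + 3) ^ 2 * g ^ n := by positivity
    calc ((n : ℝ) + 1) * (C * ((n : ℝ) + 3) ^ 2 * g ^ n)
        ≤ ((n : ℝ) + 3) * (C * ((n : ℝ) + 3) ^ 2 * g ^ n) :=
          mul_le_mul_of_nonneg_right (by linarith) h2
      _ = C * ((n : ℝ) + 3) ^ 3 * g ^ n := by ring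
  have h3 : ∀ c' : ℝ, g < c' → ∀ᶠ n : ℕ in atTop, (M n : ℝ) ≤ c' ^ n := fun c' hc' =>
    eventually_le_pow 3 hC hg0 hc' h1
  exact ⟨limsup_le_of_eventually hg0 h3, h3⟩

/-- the same with an arbitrary power of `n + 3` -/
theorem growth' {C g : ℝ} (j : ℕ) (hC : 0 < C) (hg : 1 ≤ g)
    (h : ∀ (n k : ℕ) (F : Finset (Finset (Fin n))), SunflowerFree F → (∀ A ∈ F, A.card = k) →
      (F.card : ℝ) ≤ C * ((n : ℝ) + 3) ^ j * g ^ n) :
    limsup (fun n : ℕ => (M n : ℝ) ^ (1 / (n : ℝ))) atTop ≤ g ∧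
      ∀ c' : ℝ, g < c' → ∀ᶠ n : ℕ in atTop, (M n : ℝ) ≤ c' ^ n := by
  have hg0 : 0 < g := one_pos.trans_le hg
  have h1 : ∀ n : ℕ, (M n : ℝ) ≤ C * ((n : ℝ) + 3) ^ (j + 1) * g ^ n := by
    intro n
    refine (M_le_mul (B := C * ((n : ℝ) + 3) ^ j * g ^ n) fun k F hF hk => h n k F hF hk).trans ?_
    have h2 : 0 ≤ C * ((n : ℝ) + 3) ^ j * g ^ n := by positivity
    calc ((n : ℝ) + 1) * (C * ((n : ℝ) + 3) ^ j * g ^ n)
        ≤ ((n : ℝ) + 3) * (C * ((n : ℝ) + 3) ^ j * g ^ n) :=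
          mul_le_mul_of_nonneg_right (by linarith) h2
      _ = C * ((n : ℝ) + 3) ^ (j + 1) * g ^ n := by ring
  have h3 : ∀ c' : ℝ, g < c' → ∀ᶠ n : ℕ in atTop, (M n : ℝ) ≤ c' ^ n := fun c' hc' =>
    eventually_le_pow (j + 1) hC hg0 hc' h1
  exact ⟨limsup_le_of_eventually hg0 h3, h3⟩

end Pool.Agent.MP81defaV
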