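import Mathlib

/-! # The constant `1 + (1 - 2 / (3 √3)) ^ (1/3)` -/

set_option autoImplicit false

namespace Pool.Agent.MP81defaV

theorem sqrt3_sq : (√(3 : ℝ)) ^ 2 = 3 := Real.sq_sqrt (by norm_num)

theorem sqrt3_gt : (1.732 : ℝ) < √(3 : ℝ) := by
  rw [Real.lt_sqrt (by norm_num)]
  norm_num

theorem sqrt3_lt : √(3 : ℝ) < 1.7321 := by
  rw [Real.sqrt_lt' (by norm_num)]
  norm_num

theorem sqrt3_pos : (0 : ℝ) < √(3 : ℝ) := by positivity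

theorem A_pos : (0 : ℝ) < 1 - 2 / (3 * √(3 : ℝ)) := by
  have h := sqrt3_gt
  have h1 : 2 / (3 * √(3 : ℝ)) < 1 := by
    rw [div_lt_one (by positivity)]
    linarith
  linarith

theorem A_gt : (0.6 : ℝ) < 1 - 2 / (3 * √(3 : ℝ)) := by
  have h := sqrt3_gt
  have h1 : 2 / (3 * √(3 : ℝ)) < 0.4 := by
    rw [div_lt_iff₀ (by positivity)]
    linarith
  linarith

theorem A_lt : 1 - 2 / (3 * √(3 : ℝ)) < 0.6152 := by
  have h := sqrt3_lt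
  have h1 : (0.3848 : ℝ) < 2 / (3 * √(3 : ℝ)) := by
    rw [lt_div_iff₀ (by positivity)]
    linarith
  linarith

theorem A_lt_one : 1 - 2 / (3 * √(3 : ℝ)) < 1 := by
  have := A_lt
  linarith

theorem rpow_third_cube {A : ℝ} (hA : 0 ≤ A) : (A ^ (1 / 3 : ℝ)) ^ 3 = A := by
  rw [← Real.rpow_natCast, ← Real.rpow_mul hA]
  norm_num

theorem A_cube : ((1 - 2 / (3 * √(3 : ℝ))) ^ (1 / 3 : ℝ)) ^ 3 = 1 - 2 / (3 * √(3 : ℝ)) :=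
  rpow_third_cube A_pos.le

theorem s_pos : (0 : ℝ) < (1 - 2 / (3 * √(3 : ℝ))) ^ (1 / 3 : ℝ) :=
  Real.rpow_pos_of_pos A_pos _

theorem s_lt : (1 - 2 / (3 * √(3 : ℝ))) ^ (1 / 3 : ℝ) < 0.8505 := by
  by_contra h
  push Not at h
  have h1 := pow_le_pow_left₀ (by norm_num) h 3
  rw [A_cube] at h1
  have h2 := A_lt
  norm_num at h1 h2
  linarith

theorem s_gt : (0.84 : ℝ) < (1 - 2 / (3 * √(3 : ℝ))) ^ (1 / 3 : ℝ) := by
  by_contra h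
  push Not at h
  have h1 := pow_le_pow_left₀ s_pos.le h 3
  rw [A_cube] at h1
  have h2 := A_gt
  norm_num at h1 h2
  linarith

theorem s_lt_one : (1 - 2 / (3 * √(3 : ℝ))) ^ (1 / 3 : ℝ) < 1 := by
  have := s_lt
  linarith

theorem const_lt : 1 + (1 - 2 / (3 * √(3 : ℝ))) ^ (1 / 3 : ℝ) < 1.8505 := by
  have := s_lt
  linarith

theorem two_rpow_cube : ((2 : ℝ) ^ (2 / 3 : ℝ)) ^ 3 = 4 := by
  rw [← Real.rpow_natCast, ← Real.rpow_mul (by norm_num)]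
  norm_num

theorem lt_three_div : (1.8505 : ℝ) < 3 / (2 : ℝ) ^ (2 / 3 : ℝ) := by
  have h0 : (0 : ℝ) < (2 : ℝ) ^ (2 / 3 : ℝ) := by positivity
  have h2 : (2 : ℝ) ^ (2 / 3 : ℝ) < 1.6 := by
    by_contra h
    push Not at h
    have := pow_le_pow_left₀ (by norm_num) h 3
    rw [two_rpow_cube] at this
    norm_num at this
  rw [lt_div_iff₀ h0]
  nlinarith

theorem t_pos : (0 : ℝ) < 1 / √(3 : ℝ) := by positivity

theorem t_le : 1 / √(3 : ℝ) ≤ 1 := by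
  rw [div_le_one sqrt3_pos]
  have := sqrt3_gt
  linarith

theorem t_sq : (1 / √(3 : ℝ)) ^ 2 = 1 / 3 := by
  rw [div_pow, sqrt3_sq]
  norm_num

theorem t_A : 1 - 1 / √(3 : ℝ) + (1 / √(3 : ℝ)) ^ 3 = 1 - 2 / (3 * √(3 : ℝ)) := by
  have h : (1 / √(3 : ℝ)) ^ 3 = (1 / 3) * (1 / √(3 : ℝ)) := by
    rw [pow_succ, t_sq]
  rw [h]
  have h0 := sqrt3_pos.ne'
  field_simp
  ring

/-- `3 s² / t ≥ 3.6`, in particular at least `1`. -/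
theorem stars_ge : (3.6 : ℝ) ≤
    3 * ((1 - 2 / (3 * √(3 : ℝ))) ^ (1 / 3 : ℝ)) ^ 2 / (1 / √(3 : ℝ)) := by
  have h1 := s_gt
  have h2 := sqrt3_gt
  have h3 : (0.7 : ℝ) ≤ ((1 - 2 / (3 * √(3 : ℝ))) ^ (1 / 3 : ℝ)) ^ 2 := by nlinarith
  rw [div_div_eq_mul_div, div_one]
  nlinarith

theorem stars_ge_one : (1 : ℝ) ≤
    3 * ((1 - 2 / (3 * √(3 : ℝ))) ^ (1 / 3 : ℝ)) ^ 2 / (1 / √(3 : ℝ)) := by
  have := stars_ge
  linarith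

/-- the growth constant: with `t = 1 / √3`, `s = A ^ (1/3)`,
`1 + (1 - t + t ^ 3 + 2 * s ^ 3) / (3 * s ^ 2) = 1 + s`. -/
theorem const_eq :
    1 + (1 - 1 / √(3 : ℝ) + (1 / √(3 : ℝ)) ^ 3 +
      2 * ((1 - 2 / (3 * √(3 : ℝ))) ^ (1 / 3 : ℝ)) ^ 3) /
        (3 * ((1 - 2 / (3 * √(3 : ℝ))) ^ (1 / 3 : ℝ)) ^ 2) =
      1 + (1 - 2 / (3 * √(3 : ℝ))) ^ (1 / 3 : ℝ) := by
  have hs := s_pos
  have hc := A_cube
  rw [t_A]
  set s := (1 - 2 / (3 * √(3 : ℝ))) ^ (1 / 3 : ℝ) with hsd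
  rw [← hc]
  have : s ≠ 0 := hs.ne'
  field_simp
  ring

end Pool.Agent.MP81defaV
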