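import Mathlib

/-! # A lower bound for the middle trinomial coefficient -/

set_option autoImplicit false

namespace Pool.Agent.MP81defaV

theorem N_step (m : ℕ) :
    Nat.choose (m+1) ((m+1+2)/3) * Nat.choose (m+1 - (m+1+2)/3) ((m+1+1)/3) * (m/3+1)
      = (m+1) * (Nat.choose m ((m+2)/3) * Nat.choose (m - (m+2)/3) ((m+1)/3)) := by
  obtain ⟨q, hq⟩ : ∃ q, m = 3*q ∨ m = 3*q+1 ∨ m = 3*q+2 := ⟨m/3, by omega⟩
  rcases hq with rfl | rfl | rfl
  · have h1 : (3*q+1+2)/3 = q+1 := by omega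
    have h2 : 3*q+1 - (q+1) = 2*q := by omega
    have h3 : (3*q+1+1)/3 = q := by omega
    have h4 : (3*q)/3 = q := by omega
    have h5 : (3*q+2)/3 = q := by omega
    have h6 : 3*q - q = 2*q := by omega
    have h7 : (3*q+1)/3 = q := by omega
    rw [h1, h2, h3, h4, h6, h7]
    have e := Nat.add_one_mul_choose_eq (3*q) q
    calc Nat.choose (3*q+1) (q+1) * Nat.choose (2*q) q * (q+1)
        = (Nat.choose (3*q+1) (q+1) * (q+1)) * Nat.choose (2*q) q := by ring
      _ = ((3*q+1) * Nat.choose (3*q) q) * Nat.choose (2*q) q := by rw [e]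
      _ = _ := by ring
  · have h1 : (3*q+1+1+2)/3 = q+1 := by omega
    have h2 : 3*q+1+1 - (q+1) = 2*q+1 := by omega
    have h3 : (3*q+1+1+1)/3 = q+1 := by omega
    have h4 : (3*q+1)/3 = q := by omega
    have h5 : (3*q+1+2)/3 = q+1 := by omega
    have h6 : 3*q+1 - (q+1) = 2*q := by omega
    have h7 : (3*q+1+1)/3 = q := by omega
    rw [h1, h2, h3, h4, h6, h7]
    have e := Nat.add_one_mul_choose_eq (2*q) q
    have f := Nat.choose_mul_succ_eq (3*q+1) (q+1)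
    have g : 3*q+1+1 - (q+1) = 2*q+1 := by omega
    rw [g] at f
    calc Nat.choose (3*q+1+1) (q+1) * Nat.choose (2*q+1) (q+1) * (q+1)
        = Nat.choose (3*q+1+1) (q+1) * (Nat.choose (2*q+1) (q+1) * (q+1)) := by ring
      _ = Nat.choose (3*q+1+1) (q+1) * ((2*q+1) * Nat.choose (2*q) q) := by rw [e]
      _ = (Nat.choose (3*q+1+1) (q+1) * (2*q+1)) * Nat.choose (2*q) q := by ring
      _ = (Nat.choose (3*q+1) (q+1) * (3*q+1+1)) * Nat.choose (2*q) q := by rw [← f]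
      _ = _ := by ring
  · have h1 : (3*q+2+1+2)/3 = q+1 := by omega
    have h2 : 3*q+2+1 - (q+1) = 2*q+2 := by omega
    have h3 : (3*q+2+1+1)/3 = q+1 := by omega
    have h4 : (3*q+2)/3 = q := by omega
    have h5 : (3*q+2+2)/3 = q+1 := by omega
    have h6 : 3*q+2 - (q+1) = 2*q+1 := by omega
    have h7 : (3*q+2+1)/3 = q+1 := by omega
    rw [h1, h2, h3, h4, h6, h7]
    have e := Nat.choose_mul_succ_eq (2*q+1) (q+1)
    have e' : 2*q+1+1 - (q+1) = q+1 := by omega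
    rw [e'] at e
    have f := Nat.choose_mul_succ_eq (3*q+2) (q+1)
    have g : 3*q+2+1 - (q+1) = 2*q+2 := by omega
    rw [g] at f
    calc Nat.choose (3*q+2+1) (q+1) * Nat.choose (2*q+2) (q+1) * (q+1)
        = Nat.choose (3*q+2+1) (q+1) * (Nat.choose (2*q+1+1) (q+1) * (q+1)) := by ring
      _ = Nat.choose (3*q+2+1) (q+1) * (Nat.choose (2*q+1) (q+1) * (2*q+1+1)) := by rw [← e]
      _ = (Nat.choose (3*q+2+1) (q+1) * (2*q+2)) * Nat.choose (2*q+1) (q+1) := by ring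
      _ = (Nat.choose (3*q+2) (q+1) * (3*q+2+1)) * Nat.choose (2*q+1) (q+1) := by rw [← f]
      _ = _ := by ring

theorem N_lower (m : ℕ) :
    2 * 3 ^ m ≤ Nat.choose m ((m+2)/3) * Nat.choose (m - (m+2)/3) ((m+1)/3)
      * ((m+1)*(m+2)) := by
  induction m with
  | zero => simp
  | succ m ih =>
    have hs := N_step m
    set X := Nat.choose m ((m+2)/3) * Nat.choose (m - (m+2)/3) ((m+1)/3) with hX
    set Y := Nat.choose (m+1) ((m+1+2)/3) * Nat.choose (m+1 - (m+1+2)/3) ((m+1+1)/3) with hY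
    have hq : 3 * (m/3+1) ≤ m+3 := by omega
    have hpos : 0 < m/3+1 := Nat.succ_pos _
    have key : (2 * 3^(m+1)) * (m/3+1) ≤ (Y * ((m+1+1)*(m+1+2))) * (m/3+1) := by
      calc (2 * 3^(m+1)) * (m/3+1) = (2*3^m) * (3 * (m/3+1)) := by ring
        _ ≤ (X * ((m+1)*(m+2))) * (m+3) := Nat.mul_le_mul ih hq
        _ = ((m+1) * X) * ((m+2)*(m+3)) := by ring
        _ = (Y * (m/3+1)) * ((m+2)*(m+3)) := by rw [hs]
        _ = _ := by ring
    exact Nat.le_of_mul_le_mul_right key hpos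

end Pool.Agent.MP81defaV
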