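import Pool.Agent.Lib.MP_81defa_co.Blow
import Pool.Agent.Lib.MP_81defa_co.Trinom
import Pool.Agent.Lib.MP_81defa_co.Growth
import Pool.Agent.Lib.MP_81defa_co.Numbers

/-! # The upper bound for uniform sunflower-free families -/

set_option autoImplicit false

open Finset Function

namespace Pool.Agent.MP81defaV

open Pool.Agent.MP81defa

/-- the number of index words -/
theorem card_light_le (α : Type) [Fintype α] [DecidableEq α] (μ : ℕ) (t b : ℝ) (h0 : 0 < t)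
    (h1 : t ≤ 1) (hb : 0 < b) :
    ((light α μ).card : ℝ) * (t ^ Fintype.card α * b ^ (2 * μ)) ≤
      t ^ (3 * μ) * (1 + t ^ 3 + b) ^ Fintype.card α := by
  classical
  let ω : Fin 3 → ℝ := ![1, t ^ 3, b]
  have hω : ∀ z, ω z = (if z = 1 then t ^ 3 else 1) * (if z = 2 then b else 1) := by
    intro z
    fin_cases z <;> simp [ω]
  have hω0 : ∀ z, 0 ≤ ω z := by
    intro z
    rw [hω]
    positivity
  have e0 : ∑ z, ω z = 1 + t ^ 3 + b := by
    simp [ω, Fin.sum_univ_succ]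
    ring
  have e : (1 + t ^ 3 + b) ^ Fintype.card α = ∑ v : α → Fin 3, ∏ i, ω (v i) := by
    rw [← e0, ← Finset.card_univ, ← Finset.prod_const, Finset.prod_univ_sum,
      Fintype.piFinset_univ]
  rw [e]
  have e2 : ∀ v ∈ light α μ, t ^ Fintype.card α * b ^ (2 * μ) ≤
      t ^ (3 * μ) * ∏ i, ω (v i) := by
    intro v hv
    obtain ⟨h2, h3⟩ := (Finset.mem_filter.mp hv).2
    have e3 : ∏ i, ω (v i) = (t ^ 3) ^ (Finset.univ.filter fun i => v i = 1).card *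
        b ^ (2 * μ) := by
      simp only [hω]
      rw [Finset.prod_mul_distrib, Finset.prod_ite, Finset.prod_ite]
      simp only [Finset.prod_const, one_pow, mul_one, h2]
    rw [e3, ← mul_assoc, ← pow_mul, ← pow_add]
    refine mul_le_mul_of_nonneg_right ?_ (by positivity)
    exact pow_le_pow_of_le_one h0.le h1 (by omega)
  calc ((light α μ).card : ℝ) * (t ^ Fintype.card α * b ^ (2 * μ))
      = ∑ _v ∈ light α μ, t ^ Fintype.card α * b ^ (2 * μ) := by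
        rw [Finset.sum_const, nsmul_eq_mul]
    _ ≤ ∑ v ∈ light α μ, t ^ (3 * μ) * ∏ i, ω (v i) := Finset.sum_le_sum e2
    _ ≤ ∑ v : α → Fin 3, t ^ (3 * μ) * ∏ i, ω (v i) :=
        Finset.sum_le_sum_of_subset_of_nonneg (Finset.subset_univ _) fun v _ _ =>
          mul_nonneg (by positivity) (Finset.prod_nonneg fun i _ => hω0 _)
    _ = _ := by rw [Finset.mul_sum]

variable {n : ℕ}

/-- the bound for the members containing a given set -/
theorem card_filter_le {k μ : ℕ} {F : Finset (Finset (Fin n))} (hF : SunflowerFree F)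
    (hk : ∀ A ∈ F, A.card = k) (hn : k + 3 * μ = n) (S : Finset (Fin n)) (t s : ℝ) (h0 : 0 < t)
    (h1 : t ≤ 1) (hs : 0 < s) :
    2 * ((F.filter (S ⊆ ·)).card : ℝ) * (3 * s ^ 2 / t) ^ (3 * μ) ≤
      3 * ((3 * μ + 1) * (3 * μ + 2)) * ((1 + t ^ 3 + 2 * s ^ 3) / t) ^ (n - S.card) := by
  classical
  have hF' : SunflowerFree (F.filter (S ⊆ ·)) := by
    intro A hA B hB C hC
    exact hF A (Finset.mem_filter.mp hA).1 B (Finset.mem_filter.mp hB).1 C
      (Finset.mem_filter.mp hC).1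
  have c1 := card_mul_le hF' (fun A hA => hk A (Finset.mem_filter.mp hA).1) S
    (fun A hA => (Finset.mem_filter.mp hA).2) hn
  have c2 := N_lower (3 * μ)
  have q1 : (3 * μ + 2) / 3 = μ := by omega
  have q2 : (3 * μ + 1) / 3 = μ := by omega
  have q3 : 3 * μ - μ = 2 * μ := by omega
  rw [q1, q2, q3] at c2
  have c3 := card_light_le {i : Fin n // i ∉ S} μ t (2 * s ^ 3) h0 h1 (by positivity)
  have hcard : Fintype.card {i : Fin n // i ∉ S} = n - S.card := by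
    rw [Fintype.card_subtype_compl, Fintype.card_fin, Fintype.card_coe]
  rw [hcard] at c3
  obtain ⟨f, hf⟩ : ∃ f : ℝ, f = ((F.filter (S ⊆ ·)).card : ℝ) := ⟨_, rfl⟩
  obtain ⟨L, hL⟩ : ∃ L : ℝ, L = ((light {i : Fin n // i ∉ S} μ).card : ℝ) := ⟨_, rfl⟩
  obtain ⟨N, hN⟩ : ∃ N : ℝ, N = (((3 * μ).choose μ * (2 * μ).choose μ : ℕ) : ℝ) := ⟨_, rfl⟩
  obtain ⟨P, hP⟩ : ∃ P : ℝ, P = (3 * μ + 1) * (3 * μ + 2) := ⟨_, rfl⟩
  obtain ⟨a, ha⟩ : ∃ a : ℕ, a = n - S.card := ⟨_, rfl⟩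
  have c1' : f * N ≤ 3 * (4 ^ μ * L) := by
    rw [hf, hN, hL]
    exact_mod_cast c1
  have c2' : 2 * 3 ^ (3 * μ) ≤ N * P := by
    rw [hN, hP]
    exact_mod_cast c2
  rw [← hL, ← ha] at c3
  rw [← hf, ← ha, ← hP]
  have hf0 : 0 ≤ f := by rw [hf]; positivity
  have hP0 : 0 < P := by rw [hP]; positivity
  have c4 : f * (2 * 3 ^ (3 * μ)) ≤ 3 * (4 ^ μ * L) * P :=
    calc f * (2 * 3 ^ (3 * μ)) ≤ f * (N * P) := mul_le_mul_of_nonneg_left c2' hf0
      _ = f * N * P := by ring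
      _ ≤ _ := mul_le_mul_of_nonneg_right c1' hP0.le
  have e4 : (2 * s ^ 3) ^ (2 * μ) = 4 ^ μ * (s ^ 2) ^ (3 * μ) := by
    rw [pow_mul, pow_mul (s ^ 2) 3 μ, ← mul_pow]
    congr 1
    ring
  rw [e4] at c3
  have ht : 0 < t ^ a * t ^ (3 * μ) := by positivity
  rw [div_pow, div_pow, mul_pow]
  have h4 : (0 : ℝ) < 4 ^ μ := by positivity
  have c5 : (2 * f * (3 ^ (3 * μ) * (s ^ 2) ^ (3 * μ)) * t ^ a) * 4 ^ μ ≤
      (3 * P * (1 + t ^ 3 + 2 * s ^ 3) ^ a * t ^ (3 * μ)) * 4 ^ μ :=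
    calc (2 * f * (3 ^ (3 * μ) * (s ^ 2) ^ (3 * μ)) * t ^ a) * 4 ^ μ
        = (f * (2 * 3 ^ (3 * μ))) * (t ^ a * (4 ^ μ * (s ^ 2) ^ (3 * μ))) := by ring
      _ ≤ (3 * (4 ^ μ * L) * P) * (t ^ a * (4 ^ μ * (s ^ 2) ^ (3 * μ))) :=
        mul_le_mul_of_nonneg_right c4 (by positivity)
      _ = 3 * P * 4 ^ μ * (L * (t ^ a * (4 ^ μ * (s ^ 2) ^ (3 * μ)))) := by ring
      _ ≤ 3 * P * 4 ^ μ * (t ^ (3 * μ) * (1 + t ^ 3 + 2 * s ^ 3) ^ a) :=
        mul_le_mul_of_nonneg_left c3 (by positivity)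
      _ = _ := by ring
  have c6 := le_of_mul_le_mul_right c5 h4
  rw [← mul_div_assoc, ← mul_div_assoc, div_le_div_iff₀ (by positivity) (by positivity)]
  exact c6

/-- the weighted number of pairs `S ⊆ A ∈ F` -/
theorem sum_links {k : ℕ} {F : Finset (Finset (Fin n))} (hF : ∀ A ∈ F, A.card = k) (x : ℝ) :
    ∑ S : Finset (Fin n), x ^ S.card * ((F.filter (S ⊆ ·)).card : ℝ) = F.card * (1 + x) ^ k := by
  have h1 : ∀ S : Finset (Fin n), x ^ S.card * ((F.filter (S ⊆ ·)).card : ℝ) =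
      ∑ A ∈ F, if S ⊆ A then x ^ S.card else 0 := by
    intro S
    rw [← Finset.sum_filter, Finset.sum_const, nsmul_eq_mul, mul_comm]
  rw [Finset.sum_congr rfl fun S _ => h1 S, Finset.sum_comm]
  have h2 : ∀ A ∈ F, ∑ S : Finset (Fin n), (if S ⊆ A then x ^ S.card else 0) = (1 + x) ^ k := by
    intro A hA
    rw [← Finset.sum_filter]
    have h3 : (Finset.univ.filter fun S : Finset (Fin n) => S ⊆ A) = A.powerset := by
      ext S
      simp
    rw [h3, ← hF A hA, add_comm (1 : ℝ) x, ← Finset.sum_pow_mul_eq_add_pow x 1 A]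
    refine Finset.sum_congr rfl fun S _ => ?_
    rw [one_pow, mul_one]
  rw [Finset.sum_congr rfl h2, Finset.sum_const, nsmul_eq_mul]

/-- the bound for uniform families, `n - k` divisible by three -/
theorem card_le_pow {k μ : ℕ} {F : Finset (Finset (Fin n))} (hF : SunflowerFree F)
    (hk : ∀ A ∈ F, A.card = k) (hn : k + 3 * μ = n) (t s x : ℝ) (h0 : 0 < t)
    (h1 : t ≤ 1) (hs : 0 < s) (hx : 0 ≤ x) :
    2 * (F.card : ℝ) * ((1 + x) ^ k * (3 * s ^ 2 / t) ^ (3 * μ)) ≤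
      3 * ((3 * μ + 1) * (3 * μ + 2)) * (x + (1 + t ^ 3 + 2 * s ^ 3) / t) ^ n := by
  classical
  have e1 := sum_links hk x
  have e2 : ∑ S : Finset (Fin n), x ^ S.card * ((1 + t ^ 3 + 2 * s ^ 3) / t) ^ (n - S.card) =
      (x + (1 + t ^ 3 + 2 * s ^ 3) / t) ^ n := by
    have := Fin.sum_pow_mul_eq_add_pow (R := ℝ) x ((1 + t ^ 3 + 2 * s ^ 3) / t) (n := n)
    exact this
  rw [← e2, Finset.mul_sum]
  calc 2 * (F.card : ℝ) * ((1 + x) ^ k * (3 * s ^ 2 / t) ^ (3 * μ))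
      = 2 * (3 * s ^ 2 / t) ^ (3 * μ) * (F.card * (1 + x) ^ k) := by ring
    _ = ∑ S : Finset (Fin n), x ^ S.card *
          (2 * ((F.filter (S ⊆ ·)).card : ℝ) * (3 * s ^ 2 / t) ^ (3 * μ)) := by
        rw [← e1, Finset.mul_sum]
        exact Finset.sum_congr rfl fun S _ => by ring
    _ ≤ ∑ S : Finset (Fin n), x ^ S.card * (3 * ((3 * μ + 1) * (3 * μ + 2)) *
          ((1 + t ^ 3 + 2 * s ^ 3) / t) ^ (n - S.card)) :=
        Finset.sum_le_sum fun S _ => mul_le_mul_of_nonneg_left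
          (card_filter_le hF hk hn S t s h0 h1 hs) (by positivity)
    _ = _ := Finset.sum_congr rfl fun S _ => by ring

end Pool.Agent.MP81defaV
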