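import Mathlib

set_option autoImplicit false

open Finset

namespace Pool.Agent.MP81defa

/-- sunflower-free families over any ground type -/
def SF {α : Type*} [DecidableEq α] (F : Finset (Finset α)) : Prop :=
  ∀ A ∈ F, ∀ B ∈ F, ∀ C ∈ F, A ≠ B → A ≠ C → B ≠ C → ¬ (A ∩ B = A ∩ C ∧ A ∩ C = B ∩ C)

/-- the link of `S` -/
def link {n : ℕ} (F : Finset (Finset (Fin n))) (S : Finset (Fin n)) :
    Finset (Finset {i // i ∉ S}) :=
  (F.filter (S ⊆ ·)).image (fun A => A.subtype (· ∉ S))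

/-- the sets `A` containing `S` are determined by their traces outside `S` -/
theorem link_ext {n : ℕ} {S A B : Finset (Fin n)} (hA : S ⊆ A) (hB : S ⊆ B)
    (h : A.subtype (· ∉ S) = B.subtype (· ∉ S)) : A = B := by
  ext i
  by_cases hi : i ∈ S
  · exact ⟨fun _ => hB hi, fun _ => hA hi⟩
  · have h1 := Finset.ext_iff.mp h ⟨i, hi⟩
    rw [Finset.mem_subtype, Finset.mem_subtype] at h1
    exact h1

theorem SF.link {n : ℕ} {F : Finset (Finset (Fin n))} (hF : SF F) (S : Finset (Fin n)) :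
    SF (link F S) := by
  intro A' hA' B' hB' C' hC' hAB hAC hBC hsun
  obtain ⟨A, hA, rfl⟩ := Finset.mem_image.mp hA'
  obtain ⟨B, hB, rfl⟩ := Finset.mem_image.mp hB'
  obtain ⟨C, hC, rfl⟩ := Finset.mem_image.mp hC'
  obtain ⟨hAF, hSA⟩ := Finset.mem_filter.mp hA
  obtain ⟨hBF, hSB⟩ := Finset.mem_filter.mp hB
  obtain ⟨hCF, hSC⟩ := Finset.mem_filter.mp hC
  obtain ⟨h1, h2⟩ := hsun
  have key : ∀ {X Y Z W : Finset (Fin n)}, S ⊆ X → S ⊆ Y → S ⊆ Z → S ⊆ W →
      X.subtype (· ∉ S) ∩ Y.subtype (· ∉ S) = Z.subtype (· ∉ S) ∩ W.subtype (· ∉ S) →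
      X ∩ Y = Z ∩ W := by
    intro X Y Z W hX hY hZ hW h
    ext i
    by_cases hi : i ∈ S
    · simp only [Finset.mem_inter]
      exact ⟨fun _ => ⟨hZ hi, hW hi⟩, fun _ => ⟨hX hi, hY hi⟩⟩
    · have h3 := Finset.ext_iff.mp h ⟨i, hi⟩
      simp only [Finset.mem_inter, Finset.mem_subtype] at h3 ⊢
      exact h3
  exact hF A hAF B hBF C hCF (fun h => hAB (by rw [h])) (fun h => hAC (by rw [h]))
    (fun h => hBC (by rw [h])) ⟨key hSA hSB hSA hSC h1, key hSA hSC hSB hSC h2⟩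

theorem card_link {n : ℕ} (F : Finset (Finset (Fin n))) (S : Finset (Fin n)) :
    (link F S).card = (F.filter (S ⊆ ·)).card := by
  unfold Pool.Agent.MP81defa.link
  refine Finset.card_image_of_injOn ?_
  intro A hA B hB h
  have hA' := (Finset.mem_filter.mp (Finset.mem_coe.mp hA)).2
  have hB' := (Finset.mem_filter.mp (Finset.mem_coe.mp hB)).2
  exact link_ext hA' hB' h

theorem card_of_mem_link {n k : ℕ} {F : Finset (Finset (Fin n))} (hF : ∀ A ∈ F, A.card = k)
    {S : Finset (Fin n)} : ∀ A ∈ link F S, A.card + S.card = k := by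
  intro A' hA'
  obtain ⟨A, hA, rfl⟩ := Finset.mem_image.mp hA'
  obtain ⟨hAF, hSA⟩ := Finset.mem_filter.mp hA
  rw [Finset.card_subtype, Finset.filter_notMem_eq_sdiff, Finset.card_sdiff_add_card_eq_card hSA]
  exact hF A hAF

theorem card_of_mem_link' {n k : ℕ} {F : Finset (Finset (Fin n))} (hF : ∀ A ∈ F, A.card = k)
    {S : Finset (Fin n)} : ∀ A ∈ link F S, A.card = k - S.card := by
  intro A hA
  have := card_of_mem_link hF A hA
  omega

/-- the weighted number of pairs `S ⊆ A ∈ F` -/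
theorem sum_links {n k : ℕ} {F : Finset (Finset (Fin n))} (hF : ∀ A ∈ F, A.card = k) (x : ℝ) :
    ∑ S : Finset (Fin n), x ^ S.card * ((F.filter (S ⊆ ·)).card : ℝ) = F.card * (1 + x) ^ k := by
  have h1 : ∀ S : Finset (Fin n), x ^ S.card * ((F.filter (S ⊆ ·)).card : ℝ) =
      ∑ A ∈ F, if S ⊆ A then x ^ S.card else 0 := by
    intro S
    rw [← Finset.sum_filter, Finset.sum_const, nsmul_eq_mul, mul_comm]
  rw [Finset.sum_congr rfl fun S _ => h1 S, Finset.sum_comm]
  have h2 : ∀ A ∈ F, ∑ S : Finset (Fin n), (if S ⊆ A then x ^ S.card else 0) = (1 + x) ^ k := by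
    intro A hA
    rw [← Finset.sum_filter]
    have h3 : (Finset.univ.filter fun S : Finset (Fin n) => S ⊆ A) = A.powerset := by
      ext S
      simp
    rw [h3, ← hF A hA, add_comm (1 : ℝ) x, ← Finset.sum_pow_mul_eq_add_pow x 1 A]
    refine Finset.sum_congr rfl fun S _ => ?_
    rw [one_pow, mul_one]
  rw [Finset.sum_congr rfl h2, Finset.sum_const, nsmul_eq_mul]

end Pool.Agent.MP81defa
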