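import Pool.Agent.Lib.MP_81defa_co.UniformGrowth
import Pool.Agent.Lib.MP_81defa_co.Links

/-! # From sunflower-free families to cap sets -/

set_option autoImplicit false

open Finset Function Filter Topology

namespace Pool.Agent.MP81defa

/-- a cap set: a set of vectors over `ZMod 3` that contains no line -/
def IsCapSet {ι : Type*} (S : Finset (ι → ZMod 3)) : Prop :=
  ∀ x ∈ S, ∀ y ∈ S, ∀ z ∈ S, x + y + z = 0 → x = y ∧ y = z

/-- the largest number of points of a cap set in dimension `n` -/
noncomputable def capMax (n : ℕ) : ℕ :=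
  sSup {m | ∃ S : Finset (Fin n → ZMod 3), IsCapSet S ∧ S.card = m}

theorem capMax_bdd (n : ℕ) :
    BddAbove {m | ∃ S : Finset (Fin n → ZMod 3), IsCapSet S ∧ S.card = m} := by
  refine ⟨3 ^ n, ?_⟩
  rintro m ⟨S, -, rfl⟩
  refine (Finset.card_le_univ S).trans ?_
  simp [ZMod.card]

theorem capMax_le (n : ℕ) : capMax n ≤ 3 ^ n := by
  refine csSup_le ⟨0, ∅, by intro x hx; simp at hx, by simp⟩ ?_
  rintro m ⟨S, -, rfl⟩
  refine (Finset.card_le_univ S).trans ?_
  simp [ZMod.card]

theorem one_le_capMax (n : ℕ) : 1 ≤ capMax n := by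
  refine le_csSup (capMax_bdd n) ⟨{0}, ?_, by simp⟩
  intro x hx y hy z hz _
  simp only [Finset.mem_singleton] at hx hy hz
  exact ⟨by rw [hx, hy], by rw [hy, hz]⟩

theorem card_le_capMax {α : Type*} [Fintype α] [DecidableEq α] {S : Finset (α → ZMod 3)}
    (hS : IsCapSet S) : S.card ≤ capMax (Fintype.card α) := by
  classical
  let e := Fintype.equivFin α
  let g : (α → ZMod 3) ≃ (Fin (Fintype.card α) → ZMod 3) := Equiv.arrowCongr e (Equiv.refl _)
  refine le_csSup (capMax_bdd _) ⟨S.map g.toEmbedding, ?_, Finset.card_map _⟩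
  intro x hx y hy z hz h
  obtain ⟨x', hx', rfl⟩ := Finset.mem_map.mp hx
  obtain ⟨y', hy', rfl⟩ := Finset.mem_map.mp hy
  obtain ⟨z', hz', rfl⟩ := Finset.mem_map.mp hz
  have h' : x' + y' + z' = 0 := by
    funext i
    have := congrFun h (e i)
    simpa [g, Equiv.arrowCongr] using this
  obtain ⟨h1, h2⟩ := hS x' hx' y' hy' z' hz' h'
  exact ⟨by rw [h1], by rw [h2]⟩

section Words

variable {α : Type*} [Fintype α] [DecidableEq α]

/-- the set of the places of the letter 2 -/
def twos (w : α → ZMod 3) : Finset α := Finset.univ.filter fun i => w i = 2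

omit [DecidableEq α] in
theorem mem_twos {w : α → ZMod 3} {i : α} : i ∈ twos w ↔ w i = 2 := by simp [twos]

/-- all words whose set of twos belongs to the family -/
def capWords (F : Finset (Finset α)) : Finset (α → ZMod 3) :=
  Finset.univ.filter fun w => twos w ∈ F

theorem mem_capWords {F : Finset (Finset α)} {w : α → ZMod 3} : w ∈ capWords F ↔ twos w ∈ F := by
  simp [capWords]

theorem card_capWords {k : ℕ} {F : Finset (Finset α)} (hk : ∀ A ∈ F, A.card = k) :
    (capWords F).card = F.card * 2 ^ (Fintype.card α - k) := by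
  have h1 : ∀ A ∈ F, (Finset.univ.filter fun w : α → ZMod 3 => twos w = A).card =
      2 ^ (Fintype.card α - k) := by
    intro A hA
    have e : (Finset.univ.filter fun w : α → ZMod 3 => twos w = A) =
        Fintype.piFinset (fun i => if i ∈ A then {2} else ({0, 1} : Finset (ZMod 3))) := by
      ext w
      simp only [Finset.mem_filter, Finset.mem_univ, true_and, Fintype.mem_piFinset]
      have h3 : ∀ z : ZMod 3, z ≠ 2 ↔ z ∈ ({0, 1} : Finset (ZMod 3)) := by decide
      constructor
      · rintro rfl i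
        by_cases h : w i = 2
        · rw [if_pos (mem_twos.mpr h)]
          simp [h]
        · rw [if_neg (fun h' => h (mem_twos.mp h'))]
          exact (h3 _).mp h
      · intro h
        ext i
        rw [mem_twos]
        have hi := h i
        by_cases hA : i ∈ A
        · rw [if_pos hA, Finset.mem_singleton] at hi
          simp [hi, hA]
        · rw [if_neg hA] at hi
          simp only [hA, iff_false]
          exact (h3 _).mpr hi
    rw [e, Fintype.card_piFinset]
    have h4 : ∀ i, (if i ∈ A then {2} else ({0, 1} : Finset (ZMod 3))).card =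
        if i ∈ Aᶜ then 2 else 1 := by
      intro i
      by_cases hA : i ∈ A
      · simp [hA]
      · simp [hA]
    rw [Finset.prod_congr rfl fun i _ => h4 i, Finset.prod_ite, Finset.prod_const,
      Finset.prod_const_one, mul_one]
    congr 1
    have : (Finset.univ.filter fun i => i ∈ Aᶜ) = Aᶜ := by
      ext i; simp
    rw [this, Finset.card_compl, hk A hA]
  have h2 : capWords F = F.biUnion fun A => Finset.univ.filter fun w : α → ZMod 3 => twos w = A := by
    ext w
    simp [mem_capWords]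
  rw [h2, Finset.card_biUnion]
  · rw [Finset.sum_congr rfl h1, Finset.sum_const, smul_eq_mul]
  · intro A _ B _ hAB
    rw [Function.onFun, Finset.disjoint_left]
    intro w hA hB
    simp only [Finset.mem_filter, Finset.mem_univ, true_and] at hA hB
    exact hAB (hA.symm.trans hB)

omit [Fintype α] in
/-- three sets of a uniform family whose common places are common to all coincide -/
theorem SF.all_eq {k : ℕ} {F : Finset (Finset α)} (hF : SF F)
    (hk : ∀ A ∈ F, A.card = k) {A B C : Finset α} (hA : A ∈ F) (hB : B ∈ F) (hC : C ∈ F)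
    (h1 : ∀ i, i ∈ A → i ∈ B → i ∈ C) (h2 : ∀ i, i ∈ A → i ∈ C → i ∈ B)
    (h3 : ∀ i, i ∈ B → i ∈ C → i ∈ A) : A = B ∧ B = C := by
  by_cases e1 : A = B
  · subst e1
    refine ⟨rfl, Finset.eq_of_subset_of_card_le (fun i hi => h1 i hi hi) ?_⟩
    rw [hk _ hA, hk _ hC]
  by_cases e2 : A = C
  · subst e2
    have := Finset.eq_of_subset_of_card_le (fun i hi => h2 i hi hi) (by rw [hk _ hA, hk _ hB])
    exact ⟨this, this.symm⟩
  by_cases e3 : B = C
  · subst e3
    have := Finset.eq_of_subset_of_card_le (fun i hi => h3 i hi hi) (by rw [hk _ hA, hk _ hB])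
    exact ⟨this.symm, rfl⟩
  exfalso
  refine hF A hA B hB C hC e1 e2 e3 ⟨?_, ?_⟩
  · ext i
    simp only [Finset.mem_inter]
    exact ⟨fun h => ⟨h.1, h1 i h.1 h.2⟩, fun h => ⟨h.1, h2 i h.1 h.2⟩⟩
  · ext i
    simp only [Finset.mem_inter]
    exact ⟨fun h => ⟨h2 i h.1 h.2, h.2⟩, fun h => ⟨h3 i h.1 h.2, h.2⟩⟩

theorem zmod3_aux : ∀ a b c : ZMod 3, a + b + c = 0 →
    ((a = 2 → b = 2 → c = 2) ∧ (a = 2 → c = 2 → b = 2) ∧ (b = 2 → c = 2 → a = 2)) ∧
      ((a = 2 ↔ b = 2) → (b = 2 ↔ c = 2) → a = b ∧ b = c) := by decide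

/-- the words over a uniform sunflower-free family are a cap set -/
theorem isCapSet_capWords {k : ℕ} {F : Finset (Finset α)} (hF : SF F)
    (hk : ∀ A ∈ F, A.card = k) : IsCapSet (capWords F) := by
  intro x hx y hy z hz h
  have h0 : ∀ i, x i + y i + z i = 0 := fun i => congrFun h i
  have hb := hF.all_eq hk (mem_capWords.mp hx) (mem_capWords.mp hy) (mem_capWords.mp hz)
    (fun i ha hb => mem_twos.mpr ((zmod3_aux _ _ _ (h0 i)).1.1 (mem_twos.mp ha) (mem_twos.mp hb)))
    (fun i ha hc => mem_twos.mpr ((zmod3_aux _ _ _ (h0 i)).1.2.1 (mem_twos.mp ha) (mem_twos.mp hc)))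
    (fun i hb hc => mem_twos.mpr ((zmod3_aux _ _ _ (h0 i)).1.2.2 (mem_twos.mp hb) (mem_twos.mp hc)))
  have hi : ∀ i, x i = y i ∧ y i = z i := by
    intro i
    refine (zmod3_aux _ _ _ (h0 i)).2 ?_ ?_
    · rw [← mem_twos, ← mem_twos, hb.1]
    · rw [← mem_twos, ← mem_twos, hb.2]
  exact ⟨funext fun i => (hi i).1, funext fun i => (hi i).2⟩

/-- the bound for uniform families -/
theorem card_mul_two_pow_le {k : ℕ} {F : Finset (Finset α)} (hF : SF F)
    (hk : ∀ A ∈ F, A.card = k) :
    F.card * 2 ^ (Fintype.card α - k) ≤ capMax (Fintype.card α) := by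
  rw [← card_capWords hk]
  exact card_le_capMax (isCapSet_capWords hF hk)

end Words

/-- `SunflowerFree` implies `SF` -/
theorem SunflowerFree.sf {n : ℕ} {F : Finset (Finset (Fin n))} (hF : SunflowerFree F) : SF F :=
  fun A hA B hB C hC h1 h2 h3 h => hF A hA B hB C hC ⟨h1, h2, h3, h.1, h.2⟩

/-- the link inequality: `|F| 2 ^ n` is at most the sum of the largest cap sets over all faces -/
theorem card_mul_le_sum {n k : ℕ} {F : Finset (Finset (Fin n))} (hF : SF F)
    (hk : ∀ A ∈ F, A.card = k) :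
    (F.card : ℝ) * 2 ^ n ≤ ∑ S : Finset (Fin n), (capMax (n - S.card) : ℝ) := by
  rcases F.eq_empty_or_nonempty with rfl | ⟨A0, hA0⟩
  · simp only [Finset.card_empty, Nat.cast_zero, zero_mul]
    exact Finset.sum_nonneg fun _ _ => Nat.cast_nonneg _
  have hkn : k ≤ n := by
    have := Finset.card_le_univ A0
    rw [hk A0 hA0, Fintype.card_fin] at this
    exact this
  have h1 := sum_links hk 1
  simp only [one_pow, one_mul] at h1
  have e : (F.card : ℝ) * 2 ^ n =
      ∑ S : Finset (Fin n), ((F.filter (S ⊆ ·)).card : ℝ) * 2 ^ (n - k) := by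
    rw [← Finset.sum_mul, h1, mul_assoc]
    congr 1
    rw [show (1 : ℝ) + 1 = 2 by norm_num, ← pow_add]
    congr 1
    omega
  rw [e]
  refine Finset.sum_le_sum fun S _ => ?_
  have h2 := card_mul_two_pow_le (hF.link S) (card_of_mem_link' (S := S) hk)
  rw [card_link] at h2
  have hc : Fintype.card {i // i ∉ S} = n - S.card := by
    rw [Fintype.card_subtype_compl]
    simp
  rw [hc] at h2
  by_cases hS : S.card ≤ k
  · have e2 : n - S.card - (k - S.card) = n - k := by omega
    rw [e2] at h2
    exact_mod_cast h2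
  · have e3 : F.filter (S ⊆ ·) = ∅ := by
      rw [Finset.filter_eq_empty_iff]
      intro A hA hSA
      have := Finset.card_le_card hSA
      rw [hk A hA] at this
      exact hS this
    rw [e3]
    simp

theorem exists_capMax_le {c : ℝ} (hc0 : 0 < c)
    (h : limsup (fun n : ℕ => (capMax n : ℝ) ^ (1 / (n : ℝ))) atTop < c) :
    ∃ K : ℝ, 0 < K ∧ ∀ n, (capMax n : ℝ) ≤ K * c ^ n := by
  have h1 : ∀ᶠ n : ℕ in atTop, (capMax n : ℝ) ^ (1 / (n : ℝ)) < c := by
    refine eventually_lt_of_limsup_lt h ?_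
    refine isBoundedUnder_of_eventually_le (a := 3) ?_
    filter_upwards [eventually_gt_atTop 0] with n hn
    have hn' : (n : ℝ) ≠ 0 := by positivity
    calc (capMax n : ℝ) ^ (1 / (n : ℝ)) ≤ ((3 : ℝ) ^ n) ^ (1 / (n : ℝ)) :=
          Real.rpow_le_rpow (Nat.cast_nonneg _) (by exact_mod_cast capMax_le n) (by positivity)
      _ = 3 := by
          rw [← Real.rpow_natCast, ← Real.rpow_mul (by norm_num), mul_one_div_cancel hn',
            Real.rpow_one]
  obtain ⟨N, hN⟩ := eventually_atTop.mp h1
  refine ⟨∑ m ∈ Finset.range (N + 1), (capMax m : ℝ) / c ^ m + 1, by positivity, fun n => ?_⟩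
  by_cases hn : n ≤ N
  · have h2 : (capMax n : ℝ) / c ^ n ≤ ∑ m ∈ Finset.range (N + 1), (capMax m : ℝ) / c ^ m :=
      Finset.single_le_sum (f := fun m => (capMax m : ℝ) / c ^ m) (fun m _ => by positivity)
        (Finset.mem_range.mpr (by omega))
    have h3 : (capMax n : ℝ) = (capMax n : ℝ) / c ^ n * c ^ n := by
      field_simp
    rw [h3]
    gcongr
    linarith
  · have hn0 : 0 < n := by omega
    have hn' : (n : ℝ) ≠ 0 := by positivity
    have h2 := hN n (by omega)
    have h3 : (capMax n : ℝ) ≤ c ^ n := by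
      calc (capMax n : ℝ) = ((capMax n : ℝ) ^ (1 / (n : ℝ))) ^ n := by
            rw [← Real.rpow_natCast, ← Real.rpow_mul (Nat.cast_nonneg _),
              one_div_mul_cancel hn', Real.rpow_one]
        _ ≤ c ^ n := by gcongr
    have h4 : (0 : ℝ) ≤ ∑ m ∈ Finset.range (N + 1), (capMax m : ℝ) / c ^ m :=
      Finset.sum_nonneg fun m _ => by positivity
    calc (capMax n : ℝ) ≤ 1 * c ^ n := by rw [one_mul]; exact h3
      _ ≤ _ := by
          gcongr
          linarith

/-- **Reduction to cap sets.** The growth rate of sunflower-free families is at most the arithmetic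
mean of `1` and the growth rate of cap sets. -/
theorem limsup_M_le_cap :
    limsup (fun n : ℕ => (M n : ℝ) ^ (1 / (n : ℝ))) atTop ≤
      (1 + limsup (fun n : ℕ => (capMax n : ℝ) ^ (1 / (n : ℝ))) atTop) / 2 := by
  set L := limsup (fun n : ℕ => (capMax n : ℝ) ^ (1 / (n : ℝ))) atTop with hL
  have hL0 : 0 ≤ L := by
    rw [hL]
    refine le_limsup_of_frequently_le (Frequently.of_forall fun n => by positivity) ?_
    refine isBoundedUnder_of_eventually_le (a := 3) ?_
    filter_upwards [eventually_gt_atTop 0] with n hn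
    have hn' : (n : ℝ) ≠ 0 := by positivity
    calc (capMax n : ℝ) ^ (1 / (n : ℝ)) ≤ ((3 : ℝ) ^ n) ^ (1 / (n : ℝ)) :=
          Real.rpow_le_rpow (Nat.cast_nonneg _) (by exact_mod_cast capMax_le n) (by positivity)
      _ = 3 := by
          rw [← Real.rpow_natCast, ← Real.rpow_mul (by norm_num), mul_one_div_cancel hn',
            Real.rpow_one]
  refine le_of_forall_gt_imp_ge_of_dense fun d hd => ?_
  obtain ⟨c, hc⟩ : ∃ c : ℝ, c = 2 * d - 1 := ⟨_, rfl⟩
  have hcL : L < c := by rw [hc]; linarith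
  have hc0 : 0 < c := lt_of_le_of_lt hL0 hcL
  obtain ⟨K, hK0, hK⟩ := exists_capMax_le hc0 hcL
  have hd' : d = (1 + c) / 2 := by rw [hc]; ring
  have hd0 : 0 < d := by rw [hd']; positivity
  refine limsup_M_le (C := K) hd0 fun n => ?_
  refine M_le_of_uniform n fun k F hF hk => ?_
  have h1 := card_mul_le_sum hF.sf hk
  have h2 : ∑ S : Finset (Fin n), (capMax (n - S.card) : ℝ) ≤ K * (1 + c) ^ n := by
    calc ∑ S : Finset (Fin n), (capMax (n - S.card) : ℝ)
        ≤ ∑ S : Finset (Fin n), K * c ^ (n - S.card) := Finset.sum_le_sum fun S _ => hK _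
      _ = K * (1 + c) ^ n := by
          rw [← Finset.mul_sum]
          congr 1
          have := Finset.sum_pow_mul_eq_add_pow (1 : ℝ) c (Finset.univ : Finset (Fin n))
          rw [Finset.powerset_univ, Finset.card_univ, Fintype.card_fin] at this
          rw [← this]
          refine Finset.sum_congr rfl fun S _ => ?_
          rw [one_pow, one_mul]
  have h3 : (F.card : ℝ) * 2 ^ n ≤ (K * d ^ n) * 2 ^ n := by
    refine (h1.trans h2).trans (le_of_eq ?_)
    rw [hd', mul_assoc, ← mul_pow]
    congr 2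
    ring
  exact le_of_mul_le_mul_right h3 (by positivity)

end Pool.Agent.MP81defa
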