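import Pool.Agent.Lib.MP_81defa_co.Core

/-! # Finite certificates: pairs of families given by lists of numbers -/

set_option autoImplicit false

namespace Pool.Agent.MP81defa

/-- no member `z` of the list has `z ∩ u = i` -/
def chkZ (u i : ℕ) : List ℕ → Bool
  | [] => true
  | z :: B => match Nat.beq (Nat.land z u) i with
    | true => false
    | false => chkZ u i B

/-- no two members `x`, `y` of `A` (at different places) and member `z` of `B` satisfy
`z ∩ (x ∪ y) = x ∩ y` -/
def chkA : List ℕ → List ℕ → Bool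
  | [], _ => true
  | x :: A, B => (A.all fun y => chkZ (Nat.lor x y) (Nat.land x y) B) && chkA A B

/-- the members of `B` containing a member of `A` are equal to it -/
def chkS (A B : List ℕ) : Bool :=
  A.all fun x => B.all fun z => !(Nat.beq (Nat.land z x) x) || Nat.beq z x

/-- no member of `B` contains a member of `A` -/
def chkN (A B : List ℕ) : Bool :=
  A.all fun x => B.all fun z => !(Nat.beq (Nat.land z x) x)

/-- all members are less than `n` -/
def chkL (n : ℕ) (A : List ℕ) : Bool := A.all fun x => Nat.blt x n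

/-- the whole test -/
def chk (k : ℕ) (L₀ L₁ : List ℕ) : Bool :=
  chkL (2 ^ k) L₀ && chkL (2 ^ k) L₁ && chkS L₀ L₀ && chkS L₁ L₁ && chkN L₁ L₀ &&
    chkA L₀ L₀ && chkA L₁ (L₁ ++ L₀)

theorem chkZ_spec {u i : ℕ} : ∀ {B : List ℕ}, chkZ u i B = true → ∀ z ∈ B, Nat.land z u ≠ i
  | [], _, z, hz => by simp at hz
  | y :: B, h, z, hz => by
    unfold chkZ at h
    cases hy : Nat.beq (Nat.land y u) i
    · rw [hy] at h
      rcases List.mem_cons.mp hz with rfl | hz
      · intro h0
        rw [h0, Nat.beq_refl] at hy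
        exact Bool.noConfusion hy
      · exact chkZ_spec h z hz
    · rw [hy] at h
      exact Bool.noConfusion h

theorem chkA_spec : ∀ {A B : List ℕ}, chkA A B = true →
    A.Pairwise fun x y => ∀ z ∈ B, Nat.land z (Nat.lor x y) ≠ Nat.land x y
  | [], _, _ => List.Pairwise.nil
  | x :: A, B, h => by
    unfold chkA at h
    rw [Bool.and_eq_true, List.all_eq_true] at h
    exact List.Pairwise.cons (fun y hy => chkZ_spec (h.1 y hy)) (chkA_spec h.2)

theorem chkA_spec' {A B : List ℕ} (h : chkA A B = true) {x y z : ℕ} (hx : x ∈ A) (hy : y ∈ A)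
    (hz : z ∈ B) (hxy : x ≠ y) : Nat.land z (Nat.lor x y) ≠ Nat.land x y := by
  have hs : Std.Symm fun x y : ℕ => ∀ z ∈ B, Nat.land z (Nat.lor x y) ≠ Nat.land x y := by
    refine ⟨?_⟩
    intro x y h z hz
    have := h z hz
    change z &&& (y ||| x) ≠ y &&& x
    rw [Nat.or_comm, Nat.and_comm y x]
    exact this
  exact (chkA_spec h).forall hx hy hxy z hz

/-- the word of a number -/
def bits (k : ℕ) (m : ℕ) : Fin k → Bool := fun j => m.testBit j

theorem bits_inj {k x y : ℕ} (hx : x < 2 ^ k) (hy : y < 2 ^ k) (h : bits k x = bits k y) :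
    x = y := by
  apply Nat.eq_of_testBit_eq
  intro j
  by_cases hj : j < k
  · exact congrFun h ⟨j, hj⟩
  · push Not at hj
    rw [Nat.testBit_lt_two_pow (hx.trans_le (Nat.pow_le_pow_right (by norm_num) hj)),
      Nat.testBit_lt_two_pow (hy.trans_le (Nat.pow_le_pow_right (by norm_num) hj))]

theorem land_of_not_two {k x y z : ℕ} (hx : x < 2 ^ k) (hy : y < 2 ^ k)
    (h : ∀ j, ¬ Two (bits k x j) (bits k y j) (bits k z j)) :
    Nat.land z (Nat.lor x y) = Nat.land x y := by
  change z &&& (x ||| y) = x &&& y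
  apply Nat.eq_of_testBit_eq
  intro j
  rw [Nat.testBit_and, Nat.testBit_or, Nat.testBit_and]
  by_cases hj : j < k
  · have := h ⟨j, hj⟩
    unfold Two bits at this
    simp only at this
    cases h1 : x.testBit j <;> cases h2 : y.testBit j <;> cases h3 : z.testBit j <;>
      simp [h1, h2, h3] at this ⊢
  · push Not at hj
    have h1 : x.testBit j = false :=
      Nat.testBit_lt_two_pow (hx.trans_le (Nat.pow_le_pow_right (by norm_num) hj))
    have h2 : y.testBit j = false :=
      Nat.testBit_lt_two_pow (hy.trans_le (Nat.pow_le_pow_right (by norm_num) hj))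
    simp [h1, h2]

theorem two_swap {a b c : Bool} : Two a b c → Two a c b := by
  cases a <;> cases b <;> cases c <;> decide

theorem two_rot {a b c : Bool} : Two a b c → Two c a b := by
  cases a <;> cases b <;> cases c <;> decide

/-- The families given by the lists `L₀`, `L₁` form a pair. -/
theorem chk_spec {k : ℕ} {L₀ L₁ : List ℕ} (h : chk k L₀ L₁ = true) :
    IsPair (fun c : Bool => ((if c then L₁ else L₀).map (bits k)).toFinset) := by
  unfold chk at h
  simp only [Bool.and_eq_true] at h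
  obtain ⟨⟨⟨⟨⟨⟨hl0, hl1⟩, hs0⟩, hs1⟩, hn⟩, ha0⟩, ha1⟩ := h
  have hL0 : ∀ x ∈ L₀, x < 2 ^ k := by
    intro x hx
    have := (List.all_eq_true.mp hl0) x hx
    exact Nat.blt_eq.mp this
  have hL1 : ∀ x ∈ L₁, x < 2 ^ k := by
    intro x hx
    have := (List.all_eq_true.mp hl1) x hx
    exact Nat.blt_eq.mp this
  have hS0 : ∀ x ∈ L₀, ∀ z ∈ L₀, Nat.land z x = x → z = x := by
    intro x hx z hz hzx
    have := (List.all_eq_true.mp ((List.all_eq_true.mp hs0) x hx)) z hz
    rw [hzx, Nat.beq_refl] at this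
    exact Nat.eq_of_beq_eq_true (by simpa using this)
  have hS1 : ∀ x ∈ L₁, ∀ z ∈ L₁, Nat.land z x = x → z = x := by
    intro x hx z hz hzx
    have := (List.all_eq_true.mp ((List.all_eq_true.mp hs1) x hx)) z hz
    rw [hzx, Nat.beq_refl] at this
    exact Nat.eq_of_beq_eq_true (by simpa using this)
  have hN : ∀ x ∈ L₁, ∀ z ∈ L₀, Nat.land z x ≠ x := by
    intro x hx z hz hzx
    have := (List.all_eq_true.mp ((List.all_eq_true.mp hn) x hx)) z hz
    rw [hzx, Nat.beq_refl] at this
    simp at this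
  have hself : ∀ x z : ℕ, Nat.land z (Nat.lor x x) = Nat.land x x → Nat.land z x = x := by
    intro x z h
    change z &&& (x ||| x) = x &&& x at h
    rwa [Nat.or_self, Nat.and_self] at h
  -- two members of `L₁`
  have h11 : ∀ x ∈ L₁, ∀ y ∈ L₁, ∀ z ∈ L₁ ++ L₀,
      (∀ j, ¬ Two (bits k x j) (bits k y j) (bits k z j)) → x = y ∧ x = z ∧ z ∈ L₁ := by
    intro x hx y hy z hz hT
    have h1 := land_of_not_two (hL1 x hx) (hL1 y hy) hT
    have hxy : x = y := by
      by_contra hne
      exact chkA_spec' ha1 hx hy hz hne h1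
    rw [← hxy] at h1
    have h2 := hself x z h1
    rcases List.mem_append.mp hz with hz' | hz'
    · exact ⟨hxy, (hS1 x hx z hz' h2).symm, hz'⟩
    · exact absurd h2 (hN x hx z hz')
  have h00 : ∀ x ∈ L₀, ∀ y ∈ L₀, ∀ z ∈ L₀,
      (∀ j, ¬ Two (bits k x j) (bits k y j) (bits k z j)) → x = y ∧ x = z := by
    intro x hx y hy z hz hT
    have h1 := land_of_not_two (hL0 x hx) (hL0 y hy) hT
    have hxy : x = y := by
      by_contra hne
      exact chkA_spec' ha0 hx hy hz hne h1
    rw [← hxy] at h1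
    exact ⟨hxy, (hS0 x hx z hz (hself x z h1)).symm⟩
  have hdis : ∀ x ∈ L₁, x ∉ L₀ := by
    intro x hx hx0
    exact hN x hx x hx0 (Nat.and_self x)
  intro a b c X hX Y hY Z hZ hT
  simp only [List.mem_toFinset, List.mem_map] at hX hY hZ
  obtain ⟨x, hx, rfl⟩ := hX
  obtain ⟨y, hy, rfl⟩ := hY
  obtain ⟨z, hz, rfl⟩ := hZ
  cases a <;> cases b <;> cases c <;> simp only [if_true, if_false, Bool.false_eq_true] at hx hy hz
  · obtain ⟨h1, h2⟩ := h00 x hx y hy z hz hT
    rw [← h1, ← h2]
    exact Or.inl ⟨rfl, rfl, rfl, rfl⟩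
  · exact Or.inr (by decide)
  · exact Or.inr (by decide)
  · -- (0,1,1)
    obtain ⟨h1, h2, h3⟩ := h11 y hy z hz x (List.mem_append_right _ hx)
      (fun j hj => hT j (two_rot hj))
    exact absurd hx (hdis x h3)
  · exact Or.inr (by decide)
  · obtain ⟨h1, h2, h3⟩ := h11 x hx z hz y (List.mem_append_right _ hy)
      (fun j hj => hT j (two_swap hj))
    exact absurd hy (hdis y h3)
  · obtain ⟨h1, h2, h3⟩ := h11 x hx y hy z (List.mem_append_right _ hz) hT
    exact absurd hz (hdis z h3)
  · obtain ⟨h1, h2, h3⟩ := h11 x hx y hy z (List.mem_append_left _ hz) hT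
    rw [← h1, ← h2]
    exact Or.inl ⟨rfl, rfl, rfl, rfl⟩

/-- the product of the letters of `m`, for the pairs `l` of letters -/
def prodL : ℕ → List (ℕ × ℕ × ℕ) → ℕ
  | _, [] => 1
  | m, t :: l => (match Nat.beq (Nat.land m 1) 1 with
    | true => t.2.2
    | false => t.2.1) * prodL (Nat.div m 2) l

theorem prodL_eq : ∀ (l : List (ℕ × ℕ × ℕ)) (m : ℕ),
    prodL m l = ∏ i : Fin l.length, (if m.testBit i then (l.get i).2.2 else (l.get i).2.1)
  | [], m => by simp [prodL]
  | t :: l, m => by
    unfold prodL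
    rw [prodL_eq l (Nat.div m 2)]
    simp only [List.length_cons]
    rw [Fin.prod_univ_succ]
    congr 1
    · rcases Nat.mod_two_eq_zero_or_one m with h | h
      · simp [h]
      · simp [h]
    · apply Finset.prod_congr rfl
      intro i _
      have : (Nat.div m 2).testBit i = m.testBit (i.succ : Fin _).val := by
        rw [Fin.val_succ, Nat.testBit_succ]
        rfl
      rw [this]
      simp

/-- the number of words obtained by substitution -/
def sumL (l : List (ℕ × ℕ × ℕ)) (L : List ℕ) : ℕ := (L.map fun m => prodL m l).sum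

/-- Composition of pairs of families. -/
theorem HasPair.comp (l : List (ℕ × ℕ × ℕ)) (hl : ∀ t ∈ l, HasPair t.1 t.2.1 t.2.2)
    (L₀ L₁ : List ℕ) (h : chk l.length L₀ L₁ = true) (h₀ : L₀.Nodup) (h₁ : L₁.Nodup)
    {N A B : ℕ} (hN : (l.map Prod.fst).sum = N) (hA : sumL l L₀ = A) (hB : sumL l L₁ = B) :
    HasPair N A B := by
  classical
  have hl' : ∀ i : Fin l.length, HasPair (l.get i).1 (l.get i).2.1 (l.get i).2.2 :=
    fun i => hl _ (List.get_mem _ _)
  choose κ hκ F hcard hF hFA hFB using hl'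
  obtain ⟨G, hG, hGc⟩ := (chk_spec h).subst hF
  have hlt : ∀ x ∈ L₀ ++ L₁, x < 2 ^ l.length := by
    unfold chk at h
    simp only [Bool.and_eq_true] at h
    obtain ⟨⟨⟨⟨⟨⟨hl0, hl1⟩, -⟩, -⟩, -⟩, -⟩, -⟩ := h
    intro x hx
    rcases List.mem_append.mp hx with hx | hx
    · exact Nat.blt_eq.mp ((List.all_eq_true.mp hl0) x hx)
    · exact Nat.blt_eq.mp ((List.all_eq_true.mp hl1) x hx)
  have key : ∀ L : List ℕ, L.Nodup → (∀ x ∈ L, x < 2 ^ l.length) →
      ∑ X ∈ (L.map (bits l.length)).toFinset, ∏ i, (F i (X i)).card = sumL l L := by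
    intro L hL hLlt
    have hnd : (L.map (bits l.length)).Nodup :=
      hL.map_on fun x hx y hy hxy => bits_inj (hLlt x hx) (hLlt y hy) hxy
    rw [List.sum_toFinset _ hnd, List.map_map]
    unfold sumL
    congr 1
    apply List.map_congr_left
    intro m _
    rw [prodL_eq]
    simp only [Function.comp]
    apply Finset.prod_congr rfl
    intro i _
    unfold bits
    cases hm : m.testBit i
    · simpa using hFA i
    · simpa using hFB i
  refine ⟨Σ i, κ i, inferInstance, G, ?_, hG, ?_, ?_⟩
  · rw [Fintype.card_sigma, ← hN]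
    simp only [hcard]
    rw [← List.sum_ofFn]
    congr 1
    apply List.ext_get
    · simp
    · intro n h1 h2
      simp
  · rw [hGc false, ← hA]
    simp only [Bool.false_eq_true, if_false]
    exact key L₀ h₀ fun x hx => hlt x (List.mem_append_left _ hx)
  · rw [hGc true, ← hB]
    simp only [if_true]
    exact key L₁ h₁ fun x hx => hlt x (List.mem_append_right _ hx)

end Pool.Agent.MP81defa
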