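import Mathlib

/-! # Free families, pairs of families, and substitution -/

set_option autoImplicit false

namespace Pool.Agent.MP81defa

/-- exactly two of the three bits are `true` -/
def Two (a b c : Bool) : Prop :=
  (a = true ∧ b = true ∧ c = false) ∨ (a = true ∧ b = false ∧ c = true) ∨
    (a = false ∧ b = true ∧ c = true)

instance (a b c : Bool) : Decidable (Two a b c) := by unfold Two; infer_instance

/-- exactly one of the three bits is `true` -/
def One (a b c : Bool) : Prop :=
  (a = true ∧ b = false ∧ c = false) ∨ (a = false ∧ b = true ∧ c = false) ∨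
    (a = false ∧ b = false ∧ c = true)

instance (a b c : Bool) : Decidable (One a b c) := by unfold One; infer_instance

theorem not_two_self (a : Bool) : ¬ Two a a a := by cases a <;> decide

theorem not_one_self (a : Bool) : ¬ One a a a := by cases a <;> decide

theorem not_two_of_one {a b c : Bool} : One a b c → ¬ Two a b c := by
  cases a <;> cases b <;> cases c <;> decide

/-- a family of 0-1 words is free if any three of its members, not all equal, have a coordinate
where exactly two of them are `1` -/
def Free {ι : Type} (F : Finset (ι → Bool)) : Prop :=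
  ∀ X ∈ F, ∀ Y ∈ F, ∀ Z ∈ F, (∀ i, ¬ Two (X i) (Y i) (Z i)) → X = Y ∧ X = Z

/-- A pair of families: three members, not all equal, without a coordinate where exactly two of
them are `1` belong to classes exactly one of which is `true`. -/
def IsPair {ι : Type} (F : Bool → Finset (ι → Bool)) : Prop :=
  ∀ a b c, ∀ X ∈ F a, ∀ Y ∈ F b, ∀ Z ∈ F c, (∀ i, ¬ Two (X i) (Y i) (Z i)) →
    (X = Y ∧ X = Z ∧ a = b ∧ a = c) ∨ One a b c

theorem IsPair.disj {ι : Type} {F : Bool → Finset (ι → Bool)} (h : IsPair F) {a b : Bool}
    {X : ι → Bool} (ha : X ∈ F a) (hb : X ∈ F b) : a = b := by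
  have h1 := h a a b X ha X ha X hb (fun i => not_two_self _)
  have h2 := h b b a X hb X hb X ha (fun i => not_two_self _)
  rcases h1 with h1 | h1
  · exact h1.2.2.2
  rcases h2 with h2 | h2
  · exact h2.2.2.2.symm
  revert h1 h2
  cases a <;> cases b <;> decide

/-- Substitution: the letter `X i` of a word of a pair is replaced by a word of the family `X i`
of the pair `F i`. -/
theorem IsPair.subst {ι : Type} [Fintype ι] [DecidableEq ι] {κ : ι → Type}
    {T : Bool → Finset (ι → Bool)} (hT : IsPair T)
    {F : ∀ i, Bool → Finset (κ i → Bool)} (hF : ∀ i, IsPair (F i)) :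
    ∃ G : Bool → Finset ((Σ i, κ i) → Bool), IsPair G ∧
      ∀ c, (G c).card = ∑ X ∈ T c, ∏ i, (F i (X i)).card := by
  classical
  let e : (∀ i, κ i → Bool) → (Σ i, κ i) → Bool := fun P x => P x.1 x.2
  have he : Function.Injective e := by
    intro P Q h
    funext i j
    exact congrFun h ⟨i, j⟩
  let S : (ι → Bool) → Finset (∀ i, κ i → Bool) := fun X => Fintype.piFinset fun i => F i (X i)
  have hS : ∀ X P, P ∈ S X ↔ ∀ i, P i ∈ F i (X i) := by
    intro X P
    simp [S, Fintype.mem_piFinset]
  refine ⟨fun c => ((T c).biUnion S).image e, ?_, ?_⟩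
  · intro a b c W₁ h₁ W₂ h₂ W₃ h₃ hW
    obtain ⟨P, hP, rfl⟩ := Finset.mem_image.mp h₁
    obtain ⟨Q, hQ, rfl⟩ := Finset.mem_image.mp h₂
    obtain ⟨R, hR, rfl⟩ := Finset.mem_image.mp h₃
    obtain ⟨X, hX, hPX⟩ := Finset.mem_biUnion.mp hP
    obtain ⟨Y, hY, hQY⟩ := Finset.mem_biUnion.mp hQ
    obtain ⟨Z, hZ, hRZ⟩ := Finset.mem_biUnion.mp hR
    rw [hS] at hPX hQY hRZ
    have key : ∀ i, (P i = Q i ∧ P i = R i ∧ X i = Y i ∧ X i = Z i) ∨ One (X i) (Y i) (Z i) :=
      fun i => hF i _ _ _ _ (hPX i) _ (hQY i) _ (hRZ i) (fun j => hW ⟨i, j⟩)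
    have h1 := hT a b c X hX Y hY Z hZ (fun i => by
      rcases key i with h | h
      · rw [← h.2.2.1, ← h.2.2.2]
        exact not_two_self _
      · exact not_two_of_one h)
    rcases h1 with ⟨hXY, hXZ, hab, hac⟩ | h1
    · left
      have hall : ∀ i, P i = Q i ∧ P i = R i := by
        intro i
        rcases key i with h | h
        · exact ⟨h.1, h.2.1⟩
        · rw [← hXY, ← hXZ] at h
          exact absurd h (not_one_self _)
      have h2 : P = Q := funext fun i => (hall i).1
      have h3 : P = R := funext fun i => (hall i).2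
      rw [← h2, ← h3]
      exact ⟨rfl, rfl, hab, hac⟩
    · exact Or.inr h1
  · intro c
    rw [Finset.card_image_of_injective _ he, Finset.card_biUnion]
    · apply Finset.sum_congr rfl
      intro X _
      exact Fintype.card_piFinset _
    · intro X _ Y _ hXY
      rw [Function.onFun, Finset.disjoint_left]
      intro P hP hP'
      rw [hS] at hP hP'
      exact hXY (funext fun i => (hF i).disj (hP i) (hP' i))

/-- transport of a pair along a bijection of the index sets -/
theorem Free.reindex {ι κ : Type} (σ : ι ≃ κ) {F : Finset (ι → Bool)} (hF : Free F) :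
    ∃ F' : Finset (κ → Bool), Free F' ∧ F'.card = F.card := by
  classical
  refine ⟨F.image fun X k => X (σ.symm k), ?_, ?_⟩
  · intro X hX Y hY Z hZ h
    obtain ⟨P, hP, rfl⟩ := Finset.mem_image.mp hX
    obtain ⟨Q, hQ, rfl⟩ := Finset.mem_image.mp hY
    obtain ⟨R, hR, rfl⟩ := Finset.mem_image.mp hZ
    have := hF P hP Q hQ R hR (fun i => by simpa using h (σ i))
    rw [← this.1, ← this.2]
    exact ⟨rfl, rfl⟩
  · apply Finset.card_image_of_injective
    intro X Y h
    funext i
    have := congrFun h (σ i)
    simpa using this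

/-- there is a pair of families of `A` and `B` words of length `N` -/
def HasPair (N A B : ℕ) : Prop :=
  ∃ (ι : Type) (_ : Fintype ι) (F : Bool → Finset (ι → Bool)), Fintype.card ι = N ∧ IsPair F ∧
    (F false).card = A ∧ (F true).card = B

theorem hasPair_one : HasPair 1 1 1 := by
  refine ⟨Unit, inferInstance, fun a => {fun _ => a}, by simp, ?_, by simp, by simp⟩
  intro a b c X hX Y hY Z hZ h
  rw [Finset.mem_singleton] at hX hY hZ
  subst hX hY hZ
  have h1 := h ()
  simp only at h1
  revert h1
  cases a <;> cases b <;> cases c <;> decide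

/-- the number of words obtained by substitution in a free family -/
theorem HasPair.free {N A B : ℕ} (h : HasPair N A B) {m : ℕ} {F' : Finset (Fin m → Bool)}
    (hF' : Free F') :
    ∃ F : Finset (Fin (m * N) → Bool), Free F ∧
      F.card = ∑ X ∈ F', ∏ i, (if X i then B else A) := by
  classical
  obtain ⟨ι, _, F, hι, hF, hA, hB⟩ := h
  have hT : IsPair (fun b : Bool => if b then F' else ∅) := by
    intro a b c X hX Y hY Z hZ h
    cases a
    · simp at hX
    cases b
    · simp at hY
    cases c
    · simp at hZ
    simp only [if_true] at hX hY hZ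
    have := hF' X hX Y hY Z hZ h
    exact Or.inl ⟨this.1, this.2, rfl, rfl⟩
  obtain ⟨G, hG, hc⟩ := hT.subst (F := fun _ => F) (fun _ => hF)
  have hfree : Free (G true) := by
    intro X hX Y hY Z hZ h
    rcases hG true true true X hX Y hY Z hZ h with h1 | h1
    · exact ⟨h1.1, h1.2.1⟩
    · exact absurd h1 (not_one_self _)
  have hcard : Fintype.card (Σ _ : Fin m, ι) = Fintype.card (Fin (m * N)) := by
    rw [Fintype.card_sigma, Fintype.card_fin]
    simp [hι]
  obtain ⟨F'', h1, h2⟩ := hfree.reindex (Fintype.equivOfCardEq hcard)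
  refine ⟨F'', h1, ?_⟩
  rw [h2, hc true]
  simp only [if_true]
  apply Finset.sum_congr rfl
  intro X _
  apply Finset.prod_congr rfl
  intro i _
  cases X i
  · simpa using hA
  · simpa using hB

end Pool.Agent.MP81defa
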