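import Mathlib

/-! # An antichain form of the slice rank bound -/

set_option autoImplicit false

open Finset Function

namespace Pool.Agent.MP81defaV

section Lead

variable {K X I L : Type*} [Field K] [Fintype X] [Fintype I] [LinearOrder L]

/-- Outside a set of at most `|I|` points there is, for every point `x`, a function that is
orthogonal to the `|I|` given functions and whose first nonzero place is `x`. -/
theorem exists_lead (r : X → L) (f : I → X → K) :
    ∃ G : Finset X, G.card ≤ Fintype.card I ∧ ∀ x, x ∉ G → ∃ h : X → K,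
      (∀ i, ∑ y, f i y * h y = 0) ∧ h x ≠ 0 ∧ ∀ y, h y ≠ 0 → r x ≤ r y := by
  classical
  let φ : (X → K) →ₗ[K] (I → K) :=
    { toFun := fun h i => ∑ y, f i y * h y
      map_add' := by
        intro h h'
        funext i
        simp [mul_add, Finset.sum_add_distrib]
      map_smul' := by
        intro c h
        funext i
        simp only [Pi.smul_apply, smul_eq_mul, RingHom.id_apply, Finset.mul_sum]
        exact Finset.sum_congr rfl fun y _ => by ring }
  let S : Finset X := Finset.univ.filter fun x => ∃ h : X → K,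
      (∀ i, ∑ y, f i y * h y = 0) ∧ h x ≠ 0 ∧ ∀ y, h y ≠ 0 → r x ≤ r y
  refine ⟨Sᶜ, ?_, ?_⟩
  · let W := LinearMap.ker φ
    let ψ : W →ₗ[K] (S → K) :=
      { toFun := fun h s => (h : X → K) s
        map_add' := by intro h h'; rfl
        map_smul' := by intro c h; rfl }
    have hψ : Injective ψ := by
      rw [injective_iff_map_eq_zero]
      intro h hh
      by_contra hne
      have hne' : (h : X → K) ≠ 0 := fun h0 => hne (Subtype.ext h0)
      obtain ⟨x0, hx0⟩ := Function.ne_iff.mp hne'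
      let Z : Finset X := Finset.univ.filter fun y => (h : X → K) y ≠ 0
      have hZ : Z.Nonempty := ⟨x0, by simpa [Z] using hx0⟩
      obtain ⟨x, hx, hmin⟩ := Finset.exists_min_image Z r hZ
      have hx' : (h : X → K) x ≠ 0 := by simpa [Z] using hx
      have hxS : x ∈ S := by
        simp only [S, Finset.mem_filter, Finset.mem_univ, true_and]
        refine ⟨h, ?_, hx', ?_⟩
        · intro i
          have := h.2
          have h2 : φ (h : X → K) = 0 := this
          exact congrFun h2 i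
        · intro y hy
          exact hmin y (by simpa [Z] using hy)
      exact hx' (congrFun hh ⟨x, hxS⟩)
    have h1 : Module.finrank K W ≤ S.card := by
      have := LinearMap.finrank_le_finrank_of_injective hψ
      simpa using this
    have h2 : Module.finrank K (LinearMap.range φ) + Module.finrank K W =
        Module.finrank K (X → K) := LinearMap.finrank_range_add_finrank_ker φ
    have h3 : Module.finrank K (LinearMap.range φ) ≤ Module.finrank K (I → K) :=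
      Submodule.finrank_le _
    rw [Module.finrank_fintype_fun_eq_card] at h2 h3
    rw [Finset.card_compl]
    omega
  · intro x hx
    have : x ∈ S := by simpa using hx
    simpa [S] using this

end Lead

section Slice

variable {K X Y V Λ L : Type*} [Field K] [Fintype X] [Fintype Λ] [LinearOrder L]

/-- A tensor of small slice rank: the triples of its support that are maximal for three linear
orders are covered by three small sets of places. -/
theorem exists_cover (r₁ r₂ r₃ : X → L) (T : X → X → X → K) (m₁ m₂ m₃ : Y → X)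
    (hT : ∀ w, T (m₁ w) (m₂ w) (m₃ w) ≠ 0)
    (hanti : ∀ w a b c, T a b c ≠ 0 → r₁ (m₁ w) ≤ r₁ a → r₂ (m₂ w) ≤ r₂ b →
      r₃ (m₃ w) ≤ r₃ c → a = m₁ w ∧ b = m₂ w ∧ c = m₃ w)
    (Ψ : V → X → K) (p₁ p₂ p₃ : Λ → V)
    (hdec : ∀ a b c, T a b c = ∑ l, Ψ (p₁ l) a * Ψ (p₂ l) b * Ψ (p₃ l) c)
    (I : Finset V) (hI : ∀ l, Ψ (p₁ l) ≠ 0 → Ψ (p₂ l) ≠ 0 → Ψ (p₃ l) ≠ 0 →
      p₁ l ∈ I ∨ p₂ l ∈ I ∨ p₃ l ∈ I) :
    ∃ G₁ G₂ G₃ : Finset X, G₁.card ≤ I.card ∧ G₂.card ≤ I.card ∧ G₃.card ≤ I.card ∧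
      ∀ w, m₁ w ∈ G₁ ∨ m₂ w ∈ G₂ ∨ m₃ w ∈ G₃ := by
  classical
  obtain ⟨G₁, hG₁, H₁⟩ := exists_lead (K := K) r₁ (fun v : I => Ψ v)
  obtain ⟨G₂, hG₂, H₂⟩ := exists_lead (K := K) r₂ (fun v : I => Ψ v)
  obtain ⟨G₃, hG₃, H₃⟩ := exists_lead (K := K) r₃ (fun v : I => Ψ v)
  rw [Fintype.card_coe] at hG₁ hG₂ hG₃
  refine ⟨G₁, G₂, G₃, hG₁, hG₂, hG₃, ?_⟩
  intro w
  by_contra hcon
  push Not at hcon
  obtain ⟨h₁, o₁, n₁, l₁⟩ := H₁ _ hcon.1
  obtain ⟨h₂, o₂, n₂, l₂⟩ := H₂ _ hcon.2.1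
  obtain ⟨h₃, o₃, n₃, l₃⟩ := H₃ _ hcon.2.2
  have e1 : ∑ a, ∑ b, ∑ c, T a b c * (h₁ a * h₂ b * h₃ c) =
      T (m₁ w) (m₂ w) (m₃ w) * (h₁ (m₁ w) * h₂ (m₂ w) * h₃ (m₃ w)) := by
    rw [Finset.sum_eq_single (m₁ w)]
    · rw [Finset.sum_eq_single (m₂ w)]
      · rw [Finset.sum_eq_single (m₃ w)]
        · intro c _ hc
          by_contra hne
          have t0 : T (m₁ w) (m₂ w) c ≠ 0 := fun h => hne (by rw [h, zero_mul])
          have c0 : h₃ c ≠ 0 := fun h => hne (by rw [h]; ring)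
          exact hc (hanti w _ _ c t0 le_rfl le_rfl (l₃ c c0)).2.2
        · intro h
          exact absurd (Finset.mem_univ _) h
      · intro b _ hb
        refine Finset.sum_eq_zero fun c _ => ?_
        by_contra hne
        have t0 : T (m₁ w) b c ≠ 0 := fun h => hne (by rw [h, zero_mul])
        have b0 : h₂ b ≠ 0 := fun h => hne (by rw [h]; ring)
        have c0 : h₃ c ≠ 0 := fun h => hne (by rw [h]; ring)
        exact hb (hanti w _ b c t0 le_rfl (l₂ b b0) (l₃ c c0)).2.1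
      · intro h
        exact absurd (Finset.mem_univ _) h
    · intro a _ ha
      refine Finset.sum_eq_zero fun b _ => Finset.sum_eq_zero fun c _ => ?_
      by_contra hne
      have t0 : T a b c ≠ 0 := fun h => hne (by rw [h, zero_mul])
      have a0 : h₁ a ≠ 0 := fun h => hne (by rw [h]; ring)
      have b0 : h₂ b ≠ 0 := fun h => hne (by rw [h]; ring)
      have c0 : h₃ c ≠ 0 := fun h => hne (by rw [h]; ring)
      exact ha (hanti w a b c t0 (l₁ a a0) (l₂ b b0) (l₃ c c0)).1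
    · intro h
      exact absurd (Finset.mem_univ _) h
  have e2 : ∑ a, ∑ b, ∑ c, T a b c * (h₁ a * h₂ b * h₃ c) = 0 := by
    have e3 : ∑ a, ∑ b, ∑ c, T a b c * (h₁ a * h₂ b * h₃ c) =
        ∑ l, (∑ a, Ψ (p₁ l) a * h₁ a) * (∑ b, Ψ (p₂ l) b * h₂ b) *
          (∑ c, Ψ (p₃ l) c * h₃ c) := by
      calc ∑ a, ∑ b, ∑ c, T a b c * (h₁ a * h₂ b * h₃ c)
          = ∑ a, ∑ b, ∑ c, ∑ l, (Ψ (p₁ l) a * h₁ a) * (Ψ (p₂ l) b * h₂ b) *
              (Ψ (p₃ l) c * h₃ c) := by
            refine Finset.sum_congr rfl fun a _ => Finset.sum_congr rfl fun b _ =>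
              Finset.sum_congr rfl fun c _ => ?_
            rw [hdec, Finset.sum_mul]
            exact Finset.sum_congr rfl fun l _ => by ring
        _ = ∑ l, ∑ a, ∑ b, ∑ c, (Ψ (p₁ l) a * h₁ a) * (Ψ (p₂ l) b * h₂ b) *
              (Ψ (p₃ l) c * h₃ c) := by
            have e4 : ∀ a b, (∑ c, ∑ l, (Ψ (p₁ l) a * h₁ a) * (Ψ (p₂ l) b * h₂ b) *
                (Ψ (p₃ l) c * h₃ c)) = ∑ l, ∑ c, (Ψ (p₁ l) a * h₁ a) * (Ψ (p₂ l) b * h₂ b) *
                (Ψ (p₃ l) c * h₃ c) := fun a b => Finset.sum_comm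
            simp only [e4]
            have e5 : ∀ a, (∑ b, ∑ l, ∑ c, (Ψ (p₁ l) a * h₁ a) * (Ψ (p₂ l) b * h₂ b) *
                (Ψ (p₃ l) c * h₃ c)) = ∑ l, ∑ b, ∑ c, (Ψ (p₁ l) a * h₁ a) *
                (Ψ (p₂ l) b * h₂ b) * (Ψ (p₃ l) c * h₃ c) := fun a => Finset.sum_comm
            simp only [e5]
            exact Finset.sum_comm
        _ = _ := by
            refine Finset.sum_congr rfl fun l _ => ?_
            rw [Finset.sum_mul_sum, Finset.sum_mul]
            refine Finset.sum_congr rfl fun a _ => ?_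
            rw [Finset.sum_mul]
            refine Finset.sum_congr rfl fun b _ => ?_
            rw [Finset.mul_sum]
    rw [e3]
    refine Finset.sum_eq_zero fun l _ => ?_
    by_cases z₁ : Ψ (p₁ l) = 0
    · simp [z₁]
    by_cases z₂ : Ψ (p₂ l) = 0
    · simp [z₂]
    by_cases z₃ : Ψ (p₃ l) = 0
    · simp [z₃]
    rcases hI l z₁ z₂ z₃ with h | h | h
    · have := o₁ ⟨_, h⟩
      simp only at this
      rw [this]; ring
    · have := o₂ ⟨_, h⟩
      simp only at this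
      rw [this]; ring
    · have := o₃ ⟨_, h⟩
      simp only at this
      rw [this]; ring
  rw [e2] at e1
  exact mul_ne_zero (hT w) (mul_ne_zero (mul_ne_zero n₁ n₂) n₃) e1.symm

/-- The slice rank bound for many maximal triples of small degree. -/
theorem card_le_mul [Fintype Y] (r₁ r₂ r₃ : X → L) (T : X → X → X → K) (m₁ m₂ m₃ : Y → X)
    (hT : ∀ w, T (m₁ w) (m₂ w) (m₃ w) ≠ 0)
    (hanti : ∀ w a b c, T a b c ≠ 0 → r₁ (m₁ w) ≤ r₁ a → r₂ (m₂ w) ≤ r₂ b →
      r₃ (m₃ w) ≤ r₃ c → a = m₁ w ∧ b = m₂ w ∧ c = m₃ w)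
    (Ψ : V → X → K) (p₁ p₂ p₃ : Λ → V)
    (hdec : ∀ a b c, T a b c = ∑ l, Ψ (p₁ l) a * Ψ (p₂ l) b * Ψ (p₃ l) c)
    (I : Finset V) (hI : ∀ l, Ψ (p₁ l) ≠ 0 → Ψ (p₂ l) ≠ 0 → Ψ (p₃ l) ≠ 0 →
      p₁ l ∈ I ∨ p₂ l ∈ I ∨ p₃ l ∈ I) (D : ℕ)
    (h₁ : ∀ F : Finset Y, ∀ x, (∀ w ∈ F, m₁ w = x) → F.card ≤ D)
    (h₂ : ∀ F : Finset Y, ∀ x, (∀ w ∈ F, m₂ w = x) → F.card ≤ D)
    (h₃ : ∀ F : Finset Y, ∀ x, (∀ w ∈ F, m₃ w = x) → F.card ≤ D) :
    Fintype.card Y ≤ 3 * (D * I.card) := by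
  classical
  obtain ⟨G₁, G₂, G₃, hG₁, hG₂, hG₃, key⟩ :=
    exists_cover r₁ r₂ r₃ T m₁ m₂ m₃ hT hanti Ψ p₁ p₂ p₃ hdec I hI
  have hcov : (Finset.univ : Finset Y) ⊆
      (Finset.univ.filter fun w => m₁ w ∈ G₁) ∪ ((Finset.univ.filter fun w => m₂ w ∈ G₂) ∪
        (Finset.univ.filter fun w => m₃ w ∈ G₃)) := by
    intro w _
    simp only [Finset.mem_union, Finset.mem_filter, Finset.mem_univ, true_and]
    exact key w
  have fib : ∀ (m : Y → X) (G : Finset X),
      (∀ F : Finset Y, ∀ x, (∀ w ∈ F, m w = x) → F.card ≤ D) → G.card ≤ I.card →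
      (Finset.univ.filter fun w => m w ∈ G).card ≤ D * I.card := by
    intro m G h hG
    refine (Finset.card_le_mul_card_image_of_maps_to (f := m) (t := G) ?_ D ?_).trans
      (Nat.mul_le_mul_left D hG)
    · intro w hw
      exact (Finset.mem_filter.mp hw).2
    · intro x _
      exact h _ x fun w hw => (Finset.mem_filter.mp hw).2
  have c1 := fib m₁ G₁ h₁ hG₁
  have c2 := fib m₂ G₂ h₂ hG₂
  have c3 := fib m₃ G₃ h₃ hG₃
  have := Finset.card_le_card hcov
  have u1 := Finset.card_union_le (Finset.univ.filter fun w => m₁ w ∈ G₁)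
    ((Finset.univ.filter fun w => m₂ w ∈ G₂) ∪ (Finset.univ.filter fun w => m₃ w ∈ G₃))
  have u2 := Finset.card_union_le (Finset.univ.filter fun w => m₂ w ∈ G₂)
    (Finset.univ.filter fun w => m₃ w ∈ G₃)
  rw [Finset.card_univ] at this
  omega

end Slice

end Pool.Agent.MP81defaV
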