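import Mathlib

/-! # Sunflower-free families -/

set_option autoImplicit false

namespace Pool.Agent.MP81defa

/-- three distinct sets whose pairwise intersections coincide -/
def IsSunflower {n : ℕ} (A B C : Finset (Fin n)) : Prop :=
  A ≠ B ∧ A ≠ C ∧ B ≠ C ∧ A ∩ B = A ∩ C ∧ A ∩ C = B ∩ C

/-- a family of subsets of `{1, …, n}` no three members of which form a sunflower -/
def SunflowerFree {n : ℕ} (F : Finset (Finset (Fin n))) : Prop :=
  ∀ A ∈ F, ∀ B ∈ F, ∀ C ∈ F, ¬ IsSunflower A B C

/-- the maximal number of members of a sunflower-free family of subsets of `{1, …, n}` -/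
noncomputable def M (n : ℕ) : ℕ :=
  sSup {m | ∃ F : Finset (Finset (Fin n)), SunflowerFree F ∧ F.card = m}

end Pool.Agent.MP81defa
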