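import Pool.Agent.Lib.MP_81defa_co.Bound

/-! # The upper bound for the growth rate of sunflower-free families -/

set_option autoImplicit false

open Finset Function Filter

namespace Pool.Agent.MP81defaV

open Pool.Agent.MP81defa

/-- adding points to the ground set -/
theorem pad {n k : ℕ} {F : Finset (Finset (Fin n))} (hF : SunflowerFree F)
    (hk : ∀ A ∈ F, A.card = k) (j : ℕ) :
    ∃ F' : Finset (Finset (Fin (n + j))), SunflowerFree F' ∧ (∀ A ∈ F', A.card = k) ∧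
      F'.card = F.card := by
  classical
  let e : Fin n ↪ Fin (n + j) := Fin.castAddEmb j
  have hinj : Injective fun A : Finset (Fin n) => A.map e := Finset.map_injective e
  refine ⟨F.image fun A => A.map e, ?_, ?_, Finset.card_image_of_injective F hinj⟩
  · intro A' hA' B' hB' C' hC' hs
    obtain ⟨A, hA, rfl⟩ := Finset.mem_image.mp hA'
    obtain ⟨B, hB, rfl⟩ := Finset.mem_image.mp hB'
    obtain ⟨C, hC, rfl⟩ := Finset.mem_image.mp hC'
    obtain ⟨h1, h2, h3, h4, h5⟩ := hs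
    refine hF A hA B hB C hC ⟨fun h => h1 (by rw [h]), fun h => h2 (by rw [h]),
      fun h => h3 (by rw [h]), ?_, ?_⟩
    · apply hinj
      simp only [Finset.map_inter]
      exact h4
    · apply hinj
      simp only [Finset.map_inter]
      exact h5
  · intro A' hA'
    obtain ⟨A, hA, rfl⟩ := Finset.mem_image.mp hA'
    rw [Finset.card_map]
    exact hk A hA

/-- the bound for all uniform families -/
theorem card_uniform {n k : ℕ} {F : Finset (Finset (Fin n))} (hF : SunflowerFree F)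
    (hk : ∀ A ∈ F, A.card = k) (t s : ℝ) (h0 : 0 < t) (h1 : t ≤ 1) (hs : 0 < s)
    (hσ : 1 ≤ 3 * s ^ 2 / t) (g : ℝ)
    (hg : g = 1 + (1 - t + t ^ 3 + 2 * s ^ 3) / (3 * s ^ 2)) (hg1 : 1 ≤ g) :
    (F.card : ℝ) ≤ 3 * g ^ 2 * ((n : ℝ) + 3) ^ 2 * g ^ n := by
  classical
  rcases F.eq_empty_or_nonempty with rfl | ⟨A₀, hA₀⟩
  · simp only [Finset.card_empty, Nat.cast_zero]
    positivity
  have hkn : k ≤ n := by
    rw [← hk A₀ hA₀]
    exact (Finset.card_le_univ A₀).trans_eq (Fintype.card_fin n)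
  obtain ⟨j, μ, hj, hμ⟩ : ∃ j μ : ℕ, j ≤ 2 ∧ k + 3 * μ = n + j :=
    ⟨3 * ((n - k + 2) / 3) - (n - k), (n - k + 2) / 3, by omega, by omega⟩
  obtain ⟨F', hF', hk', hc⟩ := pad hF hk j
  obtain ⟨σ, hσd⟩ : ∃ σ : ℝ, σ = 3 * s ^ 2 / t := ⟨_, rfl⟩
  have h2 := card_le_pow hF' hk' hμ t s (σ - 1) h0 h1 hs (by rw [hσd]; linarith)
  rw [← hσd, hc] at h2
  have hσ0 : 0 < σ := by rw [hσd]; positivity
  have e1 : (1 + (σ - 1)) ^ k * σ ^ (3 * μ) = σ ^ (n + j) := by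
    rw [add_sub_cancel, ← pow_add, hμ]
  have e2 : σ - 1 + (1 + t ^ 3 + 2 * s ^ 3) / t = g * σ := by
    rw [hg, hσd]
    field_simp
    ring
  rw [e1, e2, mul_pow, ← mul_assoc] at h2
  have h3 := le_of_mul_le_mul_right h2 (by positivity)
  have hμ2 : (3 * μ : ℝ) ≤ n + 2 := by
    have : 3 * μ ≤ n + 2 := by omega
    exact_mod_cast this
  have hμ0 : (0 : ℝ) ≤ 3 * μ := by positivity
  have hn0 : (0 : ℝ) ≤ n := Nat.cast_nonneg n
  have h4 : ((3 * μ + 1) * (3 * μ + 2) : ℝ) ≤ 2 * ((n : ℝ) + 3) ^ 2 := by nlinarith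
  have h5 : g ^ (n + j) ≤ g ^ 2 * g ^ n := by
    rw [← pow_add, add_comm 2 n]
    exact pow_le_pow_right₀ hg1 (by omega)
  have h6 : 2 * (F.card : ℝ) ≤ 2 * (3 * g ^ 2 * ((n : ℝ) + 3) ^ 2 * g ^ n) :=
    calc 2 * (F.card : ℝ) ≤ 3 * ((3 * μ + 1) * (3 * μ + 2)) * g ^ (n + j) := h3
      _ ≤ 3 * (2 * ((n : ℝ) + 3) ^ 2) * (g ^ 2 * g ^ n) := by gcongr
      _ = _ := by ring
  linarith

/-- the upper bound for the growth rate -/
theorem main :
    limsup (fun n : ℕ => (M n : ℝ) ^ (1 / (n : ℝ))) atTop ≤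
      1 + (1 - 2 / (3 * √(3 : ℝ))) ^ (1 / 3 : ℝ) ∧
    ∀ c : ℝ, 1 + (1 - 2 / (3 * √(3 : ℝ))) ^ (1 / 3 : ℝ) < c →
      ∀ᶠ n : ℕ in atTop, (M n : ℝ) ≤ c ^ n := by
  have hs := s_pos
  have hg1 : (1 : ℝ) ≤ 1 + (1 - 2 / (3 * √(3 : ℝ))) ^ (1 / 3 : ℝ) := by linarith
  refine growth (C := 3 * (1 + (1 - 2 / (3 * √(3 : ℝ))) ^ (1 / 3 : ℝ)) ^ 2) (by positivity) hg1 ?_
  intro n k F hF hk
  exact card_uniform hF hk (1 / √(3 : ℝ)) ((1 - 2 / (3 * √(3 : ℝ))) ^ (1 / 3 : ℝ)) t_pos t_le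
    s_pos stars_ge_one _ const_eq.symm hg1

end Pool.Agent.MP81defaV
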