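import Pool.Agent.Lib.MP_81defa_co.Cover
import Pool.Agent.Lib.MP_81defa_co.Defs

/-! # From uniform sunflower-free families to words over an alphabet of three letters -/

set_option autoImplicit false

open Finset Function

namespace Pool.Agent.MP81defaV

open Pool.Agent.MP81defa

/-- the first order of the letters -/
def ord1 : Fin 3 → Fin 3 := ![2, 0, 1]

/-- three functions on the letters: the letter `0` stands for membership, the letters `1` and `2`
for non-membership -/
def phi : Fin 3 → Fin 3 → ZMod 2 := ![![1, 1, 0], ![1, 0, 0], ![0, 0, 1]]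

/-- the terms of the tensor -/
abbrev J := Fin 3 × Bool

/-- the factor of a term in the variable number `k` -/
def lab (k : Fin 3) (j : J) : Fin 3 :=
  if j.2 = true then (if j.1 = k then 0 else 2) else (if j.1 = k then 1 else 0)

/-- the tensor on the letters -/
def ten (a b c : Fin 3) : ZMod 2 :=
  ∑ j : J, phi (lab 0 j) a * phi (lab 1 j) b * phi (lab 2 j) c

/-- the triples of letters in use: `none` is the triple of the letter 0, `some l` has the
letter 1 at the place `l` and the letter 2 at the other two places -/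
abbrev Th := Option (Fin 3)

/-- the letter of a triple at the place `k` -/
def leg (k : Fin 3) : Th → Fin 3
  | none => 0
  | some l => if l = k then 1 else 2

theorem ten_leg : ∀ θ : Th, ten (leg 0 θ) (leg 1 θ) (leg 2 θ) ≠ 0 := by decide +kernel

theorem ten_class : ∀ a b c, ten a b c ≠ 0 →
    ((a = 0 → b = 0 → c = 0) ∧ (a = 0 → c = 0 → b = 0) ∧ (b = 0 → c = 0 → a = 0)) := by
  decide +kernel

theorem ten_anti_aux : ∀ θ : Th, ∀ a b c, (ten a b c ≠ 0 ∧ (a = 0 ↔ b = 0) ∧ (b = 0 ↔ c = 0) ∧
    ord1 (leg 0 θ) ≤ ord1 a ∧ ord1 (leg 1 θ) ≤ ord1 b ∧ leg 2 θ ≤ c) →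
    (a = leg 0 θ ∧ b = leg 1 θ ∧ c = leg 2 θ) := by decide +kernel

theorem ten_anti (θ : Th) (a b c : Fin 3) (h0 : ten a b c ≠ 0) (h1 : a = 0 ↔ b = 0)
    (h2 : b = 0 ↔ c = 0) (h3 : ord1 (leg 0 θ) ≤ ord1 a) (h4 : ord1 (leg 1 θ) ≤ ord1 b)
    (h5 : leg 2 θ ≤ c) : a = leg 0 θ ∧ b = leg 1 θ ∧ c = leg 2 θ :=
  ten_anti_aux θ a b c ⟨h0, h1, h2, h3, h4, h5⟩

/-- the indicator of the number 1, counted twice, plus the indicator of the number 2 -/
theorem lab_count : ∀ j : J, 2 * ((if lab 0 j = 1 then 1 else 0) + (if lab 1 j = 1 then 1 else 0) +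
    (if lab 2 j = 1 then 1 else 0)) + ((if lab 0 j = 2 then 1 else 0) +
    (if lab 1 j = 2 then 1 else 0) + (if lab 2 j = 2 then 1 else 0)) = 2 := by decide +kernel

theorem phi_two : ∀ v z : Fin 3, phi v z ≠ 0 → (v = 2 ↔ z = 2) := by decide +kernel

theorem leg_zero : ∀ (k : Fin 3) (θ : Th), leg k θ = 0 ↔ θ = none := by decide +kernel

theorem leg_one : ∀ (k : Fin 3) (θ : Th), leg k θ = 1 ↔ θ = some k := by decide +kernel

/-- the number of triples with a given letter at a given place -/
def deg : Fin 3 → ℕ := ![1, 1, 2]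

theorem deg_leg : ∀ k z : Fin 3, (Finset.univ.filter fun θ : Th => leg k θ = z).card = deg z := by
  decide +kernel

theorem deg_eq : ∀ z : Fin 3, deg z = if z = 2 then 2 else 1 := by decide

end Pool.Agent.MP81defaV
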