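import Pool.Agent.Lib.MP_81defa_co.Cert

/-! # The certificates -/

set_option autoImplicit false

namespace Pool.Agent.MP81defa

/-- 75 subsets of a set of size ten, as binary numbers -/
def X₀ : List ℕ :=
  [95, 101, 123, 126, 139, 183, 189, 190, 215, 238, 249, 278, 303, 315, 317, 335, 371, 380,
   413, 423, 442, 461, 462, 467, 469, 474, 483, 486, 489, 500, 504, 543, 559, 567, 568, 605,
   619, 630, 670, 685, 691, 711, 717, 726, 729, 730, 739, 746, 748, 753, 756, 795, 814, 821,
   839, 843, 853, 858, 860, 870, 873, 876, 881, 882, 903, 910, 915, 921, 924, 933, 937, 938,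
   946, 948, 960]

/-- 46 subsets of a set of size ten, as binary numbers -/
def X₁ : List ℕ :=
  [223, 239, 242, 253, 345, 367, 375, 382, 415, 428, 439, 443, 478, 491, 501, 590, 631, 635,
   637, 661, 687, 699, 702, 731, 743, 764, 799, 803, 829, 830, 855, 877, 890, 911, 950, 953,
   971, 973, 979, 982, 988, 997, 998, 1002, 1009, 1016]

/-- subsets of a set of size seven, as binary numbers -/
def A₀ : List ℕ :=
  [15, 23, 27, 29, 30, 37, 42, 44, 49, 50, 67, 70, 73, 84, 88]

/-- subsets of a set of size seven, as binary numbers -/
def A₁ : List ℕ :=
  [31, 39, 43, 54, 57, 60, 77, 78, 83, 85, 90, 96]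

/-- subsets of a set of size seven, as binary numbers -/
def B₀ : List ℕ :=
  [11, 14, 21, 22, 25, 35, 37, 44, 50, 56, 64]

/-- subsets of a set of size seven, as binary numbers -/
def B₁ : List ℕ :=
  [31, 47, 55, 59, 61, 62, 71, 77, 83, 90, 92, 102, 105, 106, 113, 116]

theorem chkX : chk 10 X₀ X₁ = true := by decide +kernel

theorem chkAA : chk 7 A₀ A₁ = true := by decide +kernel

theorem chkBB : chk 7 B₀ B₁ = true := by decide +kernel

theorem nodX₀ : X₀.Nodup := by decide +kernel
theorem nodX₁ : X₁.Nodup := by decide +kernel
theorem nodA₀ : A₀.Nodup := by decide +kernel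
theorem nodA₁ : A₁.Nodup := by decide +kernel
theorem nodB₀ : B₀.Nodup := by decide +kernel
theorem nodB₁ : B₁.Nodup := by decide +kernel

theorem pair10 : HasPair 10 75 46 := by
  refine HasPair.comp (List.replicate 10 (1, 1, 1)) ?_ X₀ X₁ chkX nodX₀ nodX₁ (by decide +kernel)
    (by decide +kernel) (by decide +kernel)
  intro t ht
  rw [List.eq_of_mem_replicate ht]
  exact hasPair_one

/-- a number -/
def a25 : ℕ := 62625

/-- a number -/
def b25 : ℕ := 42241

theorem pair25 : HasPair 25 a25 b25 := by
  refine HasPair.comp [(1, 1, 1), (1, 1, 1), (1, 1, 1), (1, 1, 1), (1, 1, 1), (10, 75, 46), (10, 75, 46)] ?_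
    A₀ A₁ chkAA nodA₀ nodA₁ (by decide +kernel) (by decide +kernel) (by decide +kernel)
  intro t ht
  simp only [List.mem_cons, List.not_mem_nil, or_false] at ht
  rcases ht with rfl | rfl | rfl | rfl | rfl | rfl | rfl
  exacts [hasPair_one, hasPair_one, hasPair_one, hasPair_one, hasPair_one, pair10, pair10]

/-- a number -/
def a103 : ℕ := 98336814247973908875

/-- a number -/
def b103 : ℕ := 94842583219461258000

theorem pair103 : HasPair 103 a103 b103 := by
  refine HasPair.comp [(1, 1, 1), (1, 1, 1), (1, 1, 1), (25, a25, b25), (25, a25, b25), (25, a25, b25), (25, a25, b25)] ?_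
    B₀ B₁ chkBB nodB₀ nodB₁ (by decide +kernel) (by decide +kernel) (by decide +kernel)
  intro t ht
  simp only [List.mem_cons, List.not_mem_nil, or_false] at ht
  rcases ht with rfl | rfl | rfl | rfl | rfl | rfl | rfl
  exacts [hasPair_one, hasPair_one, hasPair_one, pair25, pair25, pair25, pair25]

/-- a number -/
def a535 : ℕ := 518883883754835827614482686978280570123052161830713046337156162285705168090939609214200855468750000000000

/-- a number -/
def b535 : ℕ := 347241103582867443811607814195158472129735652526118897723928747313851387445913926978274155600463867187500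

theorem pair535 : HasPair 535 a535 b535 := by
  refine HasPair.comp [(103, a103, b103), (103, a103, b103), (103, a103, b103), (103, a103, b103), (103, a103, b103), (10, 75, 46), (10, 75, 46)] ?_
    A₀ A₁ chkAA nodA₀ nodA₁ (by decide +kernel) (by decide +kernel) (by decide +kernel)
  intro t ht
  simp only [List.mem_cons, List.not_mem_nil, or_false] at ht
  rcases ht with rfl | rfl | rfl | rfl | rfl | rfl | rfl
  exacts [pair103, pair103, pair103, pair103, pair103, pair10, pair10]

/-- a number -/
def a1609 : ℕ := 1058978923259371153983377955422460716663642872438758511851461999424976812278985733759061564797445330281514972100073353381337123511152219027297759698985327552366810510733535623279354070989236902397301585279253879242382883064274838252661301962871687185365581859398847573332151302485726773738861083984375000000000000000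

/-- a number -/
def b1609 : ℕ := 1083355029898407466834522812216447361257026791206647979769122054897136325307431293162044727869957308909513223907795237640131741015189145038169353328210714006696289332275357295503291376938138090389585919656780928144178053536814621203474116713629966203358658260422481841703546303225590236252173781394958496093750000000

theorem pair1609 : HasPair 1609 a1609 b1609 := by
  refine HasPair.comp [(1, 1, 1), (1, 1, 1), (1, 1, 1), (1, 1, 1), (535, a535, b535), (535, a535, b535), (535, a535, b535)] ?_
    B₀ B₁ chkBB nodB₀ nodB₁ (by decide +kernel) (by decide +kernel) (by decide +kernel)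
  intro t ht
  simp only [List.mem_cons, List.not_mem_nil, or_false] at ht
  rcases ht with rfl | rfl | rfl | rfl | rfl | rfl | rfl
  exacts [hasPair_one, hasPair_one, hasPair_one, hasPair_one, pair535, pair535, pair535]

theorem final_ineq : 2 * 157001 ^ 1609 ≤ (2 * b1609 + a1609) * 100000 ^ 1609 := by decide +kernel

end Pool.Agent.MP81defa
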