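import Pool.Agent.Lib.MP_81defa_co.Base
import Pool.Agent.Lib.MP_81defa_co.Net
import Pool.Agent.Lib.MP_81defa_co.Defs

/-! # The lower bound for sunflower-free families -/

set_option autoImplicit false

open Filter Topology

namespace Pool.Agent.MP81defa

theorem M_bdd (n : ℕ) :
    BddAbove {m | ∃ F : Finset (Finset (Fin n)), SunflowerFree F ∧ F.card = m} := by
  refine ⟨2 ^ n, ?_⟩
  rintro m ⟨F, -, rfl⟩
  refine (Finset.card_le_univ F).trans ?_
  rw [Fintype.card_finset, Fintype.card_fin]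

theorem le_M {n : ℕ} {F : Finset (Finset (Fin n))} (hF : SunflowerFree F) : F.card ≤ M n :=
  le_csSup (M_bdd n) ⟨F, hF, rfl⟩

theorem M_le (n : ℕ) : M n ≤ 2 ^ n := by
  unfold M
  refine csSup_le ⟨0, ∅, by intro A hA; simp at hA, by simp⟩ ?_
  rintro m ⟨F, -, rfl⟩
  refine (Finset.card_le_univ F).trans ?_
  rw [Fintype.card_finset, Fintype.card_fin]

theorem M_mono : Monotone M := by
  classical
  intro m n hmn
  have hne : {k | ∃ F : Finset (Finset (Fin m)), SunflowerFree F ∧ F.card = k}.Nonempty :=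
    ⟨0, ∅, by intro A hA; simp at hA, by simp⟩
  obtain ⟨F, hF, hc⟩ := Nat.sSup_mem hne (M_bdd m)
  let f : Finset (Fin m) → Finset (Fin n) := fun A => A.map (Fin.castLEEmb hmn)
  have hf : Function.Injective f := Finset.map_injective _
  have h1 : SunflowerFree (F.image f) := by
    intro A hA B hB C hC hABC
    obtain ⟨A', hA', rfl⟩ := Finset.mem_image.mp hA
    obtain ⟨B', hB', rfl⟩ := Finset.mem_image.mp hB
    obtain ⟨C', hC', rfl⟩ := Finset.mem_image.mp hC
    obtain ⟨h1, h2, h3, h4, h5⟩ := hABC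
    refine hF A' hA' B' hB' C' hC' ⟨fun h => h1 (by rw [h]), fun h => h2 (by rw [h]),
      fun h => h3 (by rw [h]), ?_, ?_⟩
    · apply hf
      simp only [f, Finset.map_inter] at h4 ⊢
      exact h4
    · apply hf
      simp only [f, Finset.map_inter] at h5 ⊢
      exact h5
  have h2 := le_M h1
  rw [Finset.card_image_of_injective _ hf, hc] at h2
  exact h2

/-- free families of words give sunflower-free families of sets -/
theorem Free.card_le {n : ℕ} {F : Finset (Fin n → Bool)} (hF : Free F) : F.card ≤ M n := by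
  classical
  let f : (Fin n → Bool) → Finset (Fin n) := fun X => Finset.univ.filter fun i => X i = true
  have hf : Function.Injective f := by
    intro X Y h
    funext i
    have := Finset.ext_iff.mp h i
    simp only [f, Finset.mem_filter, Finset.mem_univ, true_and] at this
    cases hX : X i <;> cases hY : Y i <;> simp [hX, hY] at this ⊢
  have h1 : SunflowerFree (F.image f) := by
    intro A hA B hB C hC hABC
    obtain ⟨X, hX, rfl⟩ := Finset.mem_image.mp hA
    obtain ⟨Y, hY, rfl⟩ := Finset.mem_image.mp hB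
    obtain ⟨Z, hZ, rfl⟩ := Finset.mem_image.mp hC
    obtain ⟨h1, -, -, h4, h5⟩ := hABC
    apply h1
    have : X = Y ∧ X = Z := by
      apply hF X hX Y hY Z hZ
      intro i hi
      have e4 := Finset.ext_iff.mp h4 i
      have e5 := Finset.ext_iff.mp h5 i
      simp only [f, Finset.mem_inter, Finset.mem_filter, Finset.mem_univ, true_and] at e4 e5
      unfold Two at hi
      cases hX : X i <;> cases hY : Y i <;> cases hZ : Z i <;> simp [hX, hY, hZ] at hi e4 e5
    rw [this.1]
  rw [← Finset.card_image_of_injective _ hf]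
  exact le_M h1

/-- the main estimate, in natural numbers -/
theorem main_nat (m : ℕ) :
    157001 ^ (1609 * m) ≤ 4 * (m + 1) * 100000 ^ (1609 * m) * M (m * 1609) := by
  obtain ⟨F', hF', h1⟩ := base m a1609 b1609
  obtain ⟨F, hF, h2⟩ := pair1609.free hF'
  rw [← h2] at h1
  have h3 := hF.card_le
  have h4 : (2 * 157001 ^ 1609) ^ m ≤ ((2 * b1609 + a1609) * 100000 ^ 1609) ^ m :=
    Nat.pow_le_pow_left final_ineq m
  have h5 : 2 ^ m * 157001 ^ (1609 * m) ≤
      2 ^ m * (4 * (m + 1) * 100000 ^ (1609 * m) * M (m * 1609)) := by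
    calc 2 ^ m * 157001 ^ (1609 * m) = (2 * 157001 ^ 1609) ^ m := by
          rw [mul_pow, ← pow_mul]
      _ ≤ ((2 * b1609 + a1609) * 100000 ^ 1609) ^ m := h4
      _ = (2 * b1609 + a1609) ^ m * 100000 ^ (1609 * m) := by rw [mul_pow, ← pow_mul]
      _ ≤ (4 * (m + 1) * 2 ^ m * F.card) * 100000 ^ (1609 * m) := Nat.mul_le_mul_right _ h1
      _ ≤ (4 * (m + 1) * 2 ^ m * M (m * 1609)) * 100000 ^ (1609 * m) :=
        Nat.mul_le_mul_right _ (Nat.mul_le_mul_left _ h3)
      _ = _ := by ring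
  exact Nat.le_of_mul_le_mul_left h5 (by positivity)

/-- the main estimate, for all `n` -/
theorem main_real (n : ℕ) :
    (1.57001 : ℝ) ^ n ≤ 1.57001 ^ 1609 * (4 * (n + 1)) * M n := by
  obtain ⟨m, r, hr, hn⟩ : ∃ m r, r < 1609 ∧ n = m * 1609 + r :=
    ⟨n / 1609, n % 1609, Nat.mod_lt _ (by norm_num), by omega⟩
  have h1 : (157001 : ℝ) ^ (1609 * m) ≤ 4 * (m + 1) * 100000 ^ (1609 * m) * M (m * 1609) := by
    exact_mod_cast main_nat m
  have h2 : (1.57001 : ℝ) ^ (1609 * m) ≤ 4 * (m + 1) * M (m * 1609) := by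
    have e : (1.57001 : ℝ) = 157001 / 100000 := by norm_num
    rw [e, div_pow, div_le_iff₀ (by positivity)]
    linarith
  have h3 : (M (m * 1609) : ℝ) ≤ M n := by
    exact_mod_cast M_mono (by omega)
  have h4 : (m : ℝ) ≤ n := by
    exact_mod_cast (by omega : m ≤ n)
  have hM : (0 : ℝ) ≤ M n := Nat.cast_nonneg _
  calc (1.57001 : ℝ) ^ n ≤ 1.57001 ^ (1609 + 1609 * m) :=
        pow_le_pow_right₀ (by norm_num) (by omega)
    _ = 1.57001 ^ 1609 * 1.57001 ^ (1609 * m) := pow_add _ _ _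
    _ ≤ 1.57001 ^ 1609 * (4 * (m + 1) * M (m * 1609)) := by gcongr
    _ ≤ 1.57001 ^ 1609 * (4 * (n + 1) * M n) := by gcongr
    _ = _ := by ring

/-- exponential lower bound for every smaller base -/
theorem eventually_lt {c : ℝ} (hc0 : 0 < c) (hc : c < 1.57001) :
    ∀ᶠ n : ℕ in atTop, c ^ n < M n := by
  obtain ⟨K, hK⟩ : ∃ K : ℝ, K = 1.57001 ^ 1609 := ⟨_, rfl⟩
  have hK0 : 0 < K := by rw [hK]; exact pow_pos (by norm_num) _
  obtain ⟨r, hr⟩ : ∃ r : ℝ, r = c / 1.57001 := ⟨_, rfl⟩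
  have hr0 : 0 < r := by rw [hr]; positivity
  have hr1 : r < 1 := by
    rw [hr, div_lt_one (by norm_num)]
    exact hc
  have h1 : Tendsto (fun n : ℕ => K * (4 * ((n : ℝ) * r ^ n + r ^ n))) atTop (𝓝 0) := by
    have h2 := tendsto_self_mul_const_pow_of_lt_one hr0.le hr1
    have h3 := tendsto_pow_atTop_nhds_zero_of_lt_one hr0.le hr1
    have h4 := ((h2.add h3).const_mul 4).const_mul K
    simpa using h4
  filter_upwards [h1.eventually (gt_mem_nhds one_pos)] with n hn
  have h2 := main_real n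
  rw [← hK] at h2
  by_contra hcon
  push Not at hcon
  have h3 : (1.57001 : ℝ) ^ n ≤ K * (4 * (n + 1)) * c ^ n :=
    h2.trans (mul_le_mul_of_nonneg_left hcon (by positivity))
  have h4 : c ^ n = r ^ n * 1.57001 ^ n := by
    rw [hr, ← mul_pow]
    congr 1
    field_simp
  rw [h4] at h3
  have hp : (0 : ℝ) < 1.57001 ^ n := by positivity
  have h5 : (1.57001 : ℝ) ^ n * 1 ≤ 1.57001 ^ n * (K * (4 * ((n : ℝ) * r ^ n + r ^ n))) := by
    calc _ = (1.57001 : ℝ) ^ n := mul_one _
      _ ≤ _ := h3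
      _ = _ := by ring
  have h6 := le_of_mul_le_mul_left h5 hp
  linarith

/-- lower bound for the growth rate -/
theorem le_limsup {c : ℝ} (hc0 : 0 < c) (hc : c < 1.57001) :
    c ≤ limsup (fun n : ℕ => (M n : ℝ) ^ (1 / (n : ℝ))) atTop := by
  have hev : ∀ᶠ n : ℕ in atTop, c ≤ (M n : ℝ) ^ (1 / (n : ℝ)) := by
    filter_upwards [eventually_lt hc0 hc, eventually_gt_atTop 0] with n hn hn0
    have hn0' : (n : ℝ) ≠ 0 := by positivity
    calc c = (c ^ n) ^ (1 / (n : ℝ)) := by
          rw [← Real.rpow_natCast, ← Real.rpow_mul hc0.le, mul_one_div_cancel hn0', Real.rpow_one]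
      _ ≤ _ := Real.rpow_le_rpow (by positivity) hn.le (by positivity)
  have hb : IsBoundedUnder (· ≤ ·) atTop fun n : ℕ => (M n : ℝ) ^ (1 / (n : ℝ)) := by
    refine ⟨2, ?_⟩
    rw [eventually_map]
    filter_upwards [eventually_gt_atTop 0] with n hn0
    have hn0' : (n : ℝ) ≠ 0 := by positivity
    calc (M n : ℝ) ^ (1 / (n : ℝ)) ≤ ((2 : ℝ) ^ n) ^ (1 / (n : ℝ)) := by
          apply Real.rpow_le_rpow (Nat.cast_nonneg _) _ (by positivity)
          exact_mod_cast M_le n
      _ = 2 := by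
          rw [← Real.rpow_natCast, ← Real.rpow_mul (by norm_num), mul_one_div_cancel hn0',
            Real.rpow_one]
  exact le_limsup_of_frequently_le hev.frequently hb

theorem limsup_ge :
    (1.57001 : ℝ) ≤ limsup (fun n : ℕ => (M n : ℝ) ^ (1 / (n : ℝ))) atTop := by
  apply le_of_forall_lt
  intro c hc
  obtain ⟨d, hd1, hd2⟩ := exists_between (max_lt hc (show (0 : ℝ) < 1.57001 by norm_num))
  have h := le_limsup ((le_max_right c 0).trans_lt hd1) hd2
  exact ((le_max_left c 0).trans_lt hd1).trans_le h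

end Pool.Agent.MP81defa
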