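import Mathlib
import Pool.Agent.Lib.MP_81defa_co.Defs

set_option autoImplicit false

open Filter Topology Finset

namespace Pool.Agent.MP81defa

/-- Chernoff bound for the number of words of weight at most `0`. -/
theorem card_weight_le {I : Type*} [Fintype I] [DecidableEq I] (w : I → ℤ) {x : ℝ}
    (hx0 : 0 < x) (hx1 : x ≤ 1) (n : ℕ) :
    (((Finset.univ.filter fun v : Fin n → I => ∑ i, w (v i) ≤ 0).card : ℕ) : ℝ) ≤
      (∑ a, x ^ (w a)) ^ n := by
  have h1 : ∀ v : Fin n → I, ∑ i, w (v i) ≤ 0 → (1 : ℝ) ≤ ∏ i, x ^ (w (v i)) := by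
    intro v hv
    have e : ∏ i, x ^ (w (v i)) = x ^ (∑ i, w (v i)) := by
      induction (Finset.univ : Finset (Fin n)) using Finset.induction_on with
      | empty => simp
      | insert a s ha ih => rw [Finset.prod_insert ha, Finset.sum_insert ha, ih, zpow_add₀ hx0.ne']
    rw [e]
    exact one_le_zpow_of_nonpos₀ hx0 hx1 hv
  have h2 : ∀ v : Fin n → I, (0 : ℝ) ≤ ∏ i, x ^ (w (v i)) :=
    fun v => Finset.prod_nonneg fun i _ => (zpow_pos hx0 _).le
  calc (((Finset.univ.filter fun v : Fin n → I => ∑ i, w (v i) ≤ 0).card : ℕ) : ℝ)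
      = ∑ v ∈ Finset.univ.filter (fun v : Fin n → I => ∑ i, w (v i) ≤ 0), (1 : ℝ) := by simp
    _ ≤ ∑ v ∈ Finset.univ.filter (fun v : Fin n → I => ∑ i, w (v i) ≤ 0),
          ∏ i, x ^ (w (v i)) :=
        Finset.sum_le_sum fun v hv => h1 v (Finset.mem_filter.mp hv).2
    _ ≤ ∑ v : Fin n → I, ∏ i, x ^ (w (v i)) :=
        Finset.sum_le_sum_of_subset_of_nonneg (Finset.filter_subset _ _) fun v _ _ => h2 v
    _ = (∑ a, x ^ (w a)) ^ n := (Fintype.sum_pow (fun a => x ^ (w a)) n).symm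

/-- from uniform families to all families -/
theorem M_le_of_uniform {C c : ℝ} (n : ℕ)
    (h : ∀ k, ∀ F : Finset (Finset (Fin n)), SunflowerFree F → (∀ A ∈ F, A.card = k) →
      (F.card : ℝ) ≤ C * c ^ n) :
    (M n : ℝ) ≤ C * ((n : ℝ) + 1) * c ^ n := by
  classical
  have hne : {k | ∃ F : Finset (Finset (Fin n)), SunflowerFree F ∧ F.card = k}.Nonempty :=
    ⟨0, ∅, by intro A hA; simp at hA, by simp⟩
  have hb : BddAbove {m | ∃ F : Finset (Finset (Fin n)), SunflowerFree F ∧ F.card = m} := by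
    refine ⟨2 ^ n, ?_⟩
    rintro m ⟨F, -, rfl⟩
    refine (Finset.card_le_univ F).trans ?_
    rw [Fintype.card_finset, Fintype.card_fin]
  obtain ⟨F, hF, hFc⟩ := Nat.sSup_mem hne hb
  have h1 : F.card = ∑ k ∈ Finset.range (n + 1), (F.filter fun A => A.card = k).card := by
    refine Finset.card_eq_sum_card_fiberwise fun A _ => ?_
    rw [Finset.coe_range, Set.mem_Iio]
    have := Finset.card_le_univ A
    rw [Fintype.card_fin] at this
    omega
  have h2 : (F.card : ℝ) = M n := by rw [hFc]; rfl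
  rw [← h2, h1, Nat.cast_sum]
  calc ∑ k ∈ Finset.range (n + 1), (((F.filter fun A => A.card = k).card : ℕ) : ℝ)
      ≤ ∑ _k ∈ Finset.range (n + 1), C * c ^ n := by
        refine Finset.sum_le_sum fun k _ => h k _ ?_ ?_
        · intro A hA B hB D hD
          exact hF A (Finset.mem_filter.mp hA).1 B (Finset.mem_filter.mp hB).1 D
            (Finset.mem_filter.mp hD).1
        · intro A hA
          exact (Finset.mem_filter.mp hA).2
    _ = C * ((n : ℝ) + 1) * c ^ n := by
        rw [Finset.sum_const, Finset.card_range, nsmul_eq_mul]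
        push_cast
        ring

/-- the polynomial factor disappears in every larger base -/
theorem eventually_M_le {C c c' : ℝ} (hc : 0 < c) (hcc : c < c')
    (h : ∀ n : ℕ, (M n : ℝ) ≤ C * ((n : ℝ) + 1) * c ^ n) :
    ∀ᶠ n : ℕ in atTop, (M n : ℝ) ≤ c' ^ n := by
  have hc' : 0 < c' := hc.trans hcc
  obtain ⟨r, hr⟩ : ∃ r : ℝ, r = c / c' := ⟨_, rfl⟩
  have hr0 : 0 < r := by rw [hr]; positivity
  have hr1 : r < 1 := by
    rw [hr, div_lt_one hc']
    exact hcc
  have h1 : Tendsto (fun n : ℕ => C * ((n : ℝ) * r ^ n + r ^ n)) atTop (𝓝 0) := by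
    have h2 := tendsto_self_mul_const_pow_of_lt_one hr0.le hr1
    have h3 := tendsto_pow_atTop_nhds_zero_of_lt_one hr0.le hr1
    have h4 := (h2.add h3).const_mul C
    simpa using h4
  filter_upwards [h1.eventually (gt_mem_nhds one_pos)] with n hn
  refine (h n).trans ?_
  have e : c ^ n = r ^ n * c' ^ n := by
    rw [hr, ← mul_pow, div_mul_cancel₀ _ hc'.ne']
  rw [e]
  have h5 : C * ((n : ℝ) + 1) * (r ^ n * c' ^ n) = (C * ((n : ℝ) * r ^ n + r ^ n)) * c' ^ n := by
    ring
  rw [h5]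
  have h6 : 0 < c' ^ n := pow_pos hc' n
  nlinarith

/-- the upper bound for the exponential growth rate -/
theorem limsup_M_le {C c : ℝ} (hc : 0 < c)
    (h : ∀ n : ℕ, (M n : ℝ) ≤ C * ((n : ℝ) + 1) * c ^ n) :
    limsup (fun n : ℕ => (M n : ℝ) ^ (1 / (n : ℝ))) atTop ≤ c := by
  refine le_of_forall_gt_imp_ge_of_dense fun c' hc' => ?_
  have h0 : 0 < c' := hc.trans hc'
  have h1 := eventually_M_le hc hc' h
  refine limsup_le_of_le ?_ ?_
  · refine isCoboundedUnder_le_of_le atTop (x := 0) fun n => ?_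
    positivity
  · filter_upwards [h1, eventually_gt_atTop 0] with n hn hn0
    have hnR : (0 : ℝ) < n := by exact_mod_cast hn0
    calc (M n : ℝ) ^ (1 / (n : ℝ)) ≤ (c' ^ n) ^ (1 / (n : ℝ)) :=
          Real.rpow_le_rpow (Nat.cast_nonneg _) hn (by positivity)
      _ = c' := by
          rw [← Real.rpow_natCast, ← Real.rpow_mul h0.le, mul_one_div, div_self hnR.ne',
            Real.rpow_one]

end Pool.Agent.MP81defa
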